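import Pool.Agent.PSV.Part

/-!
# The parts of an admissible vector are admissible

PROOFS. `mem_prs`: `Nat.mem_primeFactors`, `Prime.dvd_finsetProd_iff` (in `ℤ`). `rd_empty`: a prime
in `prs z` divides some coordinate, so its type is not empty; empty product. `rd_pos`: product of
primes. `rd_le_pow`: `rd F z` divides `|∏ z i| ≤ B ^ n` (`Nat.prod_primeFactors_dvd`, a product over a
subset of the prime factors).
`rd_part`: for `F ∈ 𝒜`, the primes `p` of type `F` for `part 𝒜 z` are the primes of type `F` for `z`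
(`dvd_part_iff`: if `pat z p ∈ 𝒜` then `pat (part 𝒜 z) p = pat z p`; otherwise
`pat (part 𝒜 z) p = ∅`); for `F ∉ 𝒜` nonempty there are none. With `rd_empty` for `F = ∅`. So
`rd F (part 𝒜 z) = if F ∈ 𝒜 then rd F z else 1`. Same for `co` with `F ∉ 𝒜`.
`Adm.part`: `|part i| ≤ |z i|` by `part_dvd`; `Adm.co`: `|co i| ≤ |z i|` as `z i = part i * co i`.
`not_dvd_all`: `rd univ z ≤ M univ = 1`, but it is a product containing `p ≥ 2` if `pat z p = univ`.
-/

namespace Pool.Agent.PSV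

open Finset

variable {n B : ℕ} {M : Finset (Fin n) → ℝ}

theorem mem_prs {z : Fin n → ℤ} (hz : ∀ i, z i ≠ 0) (p : ℕ) :
    p ∈ prs z ↔ p.Prime ∧ ∃ i, (p : ℤ) ∣ z i := by
  have h0 : (∏ i, z i).natAbs ≠ 0 := by
    rw [Int.natAbs_ne_zero]
    exact Finset.prod_ne_zero_iff.2 fun i _ => hz i
  unfold prs
  rw [Nat.mem_primeFactors]
  constructor
  · rintro ⟨h1, h2, _⟩
    refine ⟨h1, ?_⟩
    have h3 : (p : ℤ) ∣ ∏ i, z i := Int.natCast_dvd.2 h2
    obtain ⟨i, _, hi⟩ := ((Nat.prime_iff_prime_int.1 h1).dvd_finsetProd_iff _).1 h3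
    exact ⟨i, hi⟩
  · rintro ⟨h1, i, hi⟩
    refine ⟨h1, Int.natCast_dvd.1 (hi.trans (Finset.dvd_prod_of_mem _ (mem_univ i))), h0⟩

private theorem prime_of_prs {z : Fin n → ℤ} {p : ℕ} (h : p ∈ prs z) : p.Prime :=
  Nat.prime_of_mem_primeFactors h

theorem rd_empty {z : Fin n → ℤ} (hz : ∀ i, z i ≠ 0) : rd ∅ z = 1 := by
  unfold rd
  apply Finset.prod_eq_one
  intro p hp
  rw [mem_filter] at hp
  exfalso
  obtain ⟨_, i, hi⟩ := (mem_prs hz p).1 hp.1
  have h1 : i ∈ pat z p := (mem_pat z p i).2 hi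
  rw [hp.2] at h1
  exact notMem_empty i h1

theorem rd_pos (F : Finset (Fin n)) (z : Fin n → ℤ) : 0 < rd F z := by
  unfold rd
  apply Finset.prod_pos
  intro p hp
  exact (prime_of_prs (mem_filter.1 hp).1).pos

private theorem prod_prs_le {z : Fin n → ℤ} (hz : ∀ i, z i ≠ 0) (hB : ∀ i, |z i| ≤ B) :
    ∏ p ∈ prs z, p ≤ B ^ n := by
  have h0 : (∏ i, z i).natAbs ≠ 0 := by
    rw [Int.natAbs_ne_zero]
    exact Finset.prod_ne_zero_iff.2 fun i _ => hz i
  have h1 : ∏ p ∈ prs z, p ≤ (∏ i, z i).natAbs :=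
    Nat.le_of_dvd (Nat.pos_of_ne_zero h0) (Nat.prod_primeFactors_dvd _)
  refine h1.trans ?_
  have h2 : (((∏ i, z i).natAbs : ℕ) : ℤ) ≤ ((B ^ n : ℕ) : ℤ) := by
    rw [Int.natCast_natAbs, Finset.abs_prod]
    calc ∏ i, |z i| ≤ ∏ _i : Fin n, (B : ℤ) :=
          Finset.prod_le_prod (fun i _ => abs_nonneg _) (fun i _ => hB i)
      _ = ((B ^ n : ℕ) : ℤ) := by
          rw [Finset.prod_const, Finset.card_univ, Fintype.card_fin]
          push_cast
          rfl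
  exact_mod_cast h2

theorem prod_rd_le_pow (𝒢 : Finset (Finset (Fin n))) {z : Fin n → ℤ} (hz : ∀ i, z i ≠ 0)
    (hB : ∀ i, |z i| ≤ B) : ∏ F ∈ 𝒢, rd F z ≤ B ^ n := by
  have h1 : ∏ F ∈ 𝒢, rd F z = ∏ p ∈ (prs z).filter (fun p => pat z p ∈ 𝒢), p := by
    rw [← Finset.prod_fiberwise_of_maps_to (s := (prs z).filter (fun p => pat z p ∈ 𝒢))
      (t := 𝒢) (g := fun p => pat z p) (fun p hp => (mem_filter.1 hp).2)]
    refine Finset.prod_congr rfl fun F hF => ?_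
    unfold rd
    congr 1
    ext p
    rw [mem_filter, mem_filter, mem_filter]
    constructor
    · rintro ⟨h2, h3⟩
      exact ⟨⟨h2, by rw [h3]; exact hF⟩, h3⟩
    · rintro ⟨⟨h2, _⟩, h3⟩
      exact ⟨h2, h3⟩
  rw [h1]
  refine le_trans ?_ (prod_prs_le hz hB)
  apply Finset.prod_le_prod_of_subset_of_one_le' (Finset.filter_subset _ _)
  intro p hp _
  exact (prime_of_prs hp).pos

theorem rd_le_pow (F : Finset (Fin n)) {z : Fin n → ℤ} (hz : ∀ i, z i ≠ 0) (hB : ∀ i, |z i| ≤ B) :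
    rd F z ≤ B ^ n := by
  have h := prod_rd_le_pow {F} hz hB
  rwa [Finset.prod_singleton] at h

theorem dvd_rd {z : Fin n → ℤ} (hz : ∀ i, z i ≠ 0) {p : ℕ} (hp : p.Prime) {i : Fin n}
    (h : (p : ℤ) ∣ z i) : p ∣ rd (pat z p) z := by
  unfold rd
  exact Finset.dvd_prod_of_mem (fun p : ℕ => p) (mem_filter.2 ⟨(mem_prs hz p).2 ⟨hp, i, h⟩, rfl⟩)

private theorem mem_rdset {w : Fin n → ℤ} (hw : ∀ i, w i ≠ 0) {F : Finset (Fin n)}
    (hF : F.Nonempty) (p : ℕ) : p ∈ (prs w).filter (fun p => pat w p = F) ↔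
      p.Prime ∧ pat w p = F := by
  rw [mem_filter, mem_prs hw]
  constructor
  · rintro ⟨⟨h1, _⟩, h2⟩
    exact ⟨h1, h2⟩
  · rintro ⟨h1, h2⟩
    obtain ⟨i, hi⟩ := hF
    rw [← h2, mem_pat] at hi
    exact ⟨⟨h1, i, hi⟩, h2⟩

theorem rd_part (𝒜 : Finset (Finset (Fin n))) {z : Fin n → ℤ} (hz : ∀ i, z i ≠ 0)
    (F : Finset (Fin n)) (hF : F.Nonempty) :
    rd F (part 𝒜 z) = if F ∈ 𝒜 then rd F z else 1 := by
  have hw : ∀ i, part 𝒜 z i ≠ 0 := fun i => (part_pos 𝒜 z i).ne'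
  have hpat : ∀ p : ℕ, p.Prime → pat (part 𝒜 z) p = if pat z p ∈ 𝒜 then pat z p else ∅ := by
    intro p hp
    ext i
    rw [mem_pat, dvd_part_iff 𝒜 (hz i) hp]
    split_ifs with h
    · rw [mem_pat]
      exact ⟨fun h1 => h1.1, fun h1 => ⟨h1, h⟩⟩
    · exact ⟨fun h1 => absurd h1.2 h, fun h1 => absurd h1 (notMem_empty i)⟩
  split_ifs with hFA
  · unfold rd
    congr 1
    ext p
    rw [mem_rdset hw hF, mem_rdset hz hF]
    constructor
    · rintro ⟨h1, h2⟩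
      refine ⟨h1, ?_⟩
      rw [hpat p h1] at h2
      split_ifs at h2 with h3
      · exact h2
      · exact absurd h2.symm hF.ne_empty
    · rintro ⟨h1, h2⟩
      refine ⟨h1, ?_⟩
      rw [hpat p h1, h2, if_pos hFA]
  · unfold rd
    apply Finset.prod_eq_one
    intro p hp
    rw [mem_rdset hw hF] at hp
    exfalso
    obtain ⟨h1, h2⟩ := hp
    rw [hpat p h1] at h2
    split_ifs at h2 with h3
    · rw [h2] at h3
      exact hFA h3
    · exact hF.ne_empty h2.symm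

theorem rd_co (𝒜 : Finset (Finset (Fin n))) {z : Fin n → ℤ} (hz : ∀ i, z i ≠ 0)
    (F : Finset (Fin n)) (hF : F.Nonempty) :
    rd F (co 𝒜 z) = if F ∈ 𝒜 then 1 else rd F z := by
  have hw : ∀ i, co 𝒜 z i ≠ 0 := fun i => co_ne_zero 𝒜 (hz i)
  have hpat : ∀ p : ℕ, p.Prime → pat (co 𝒜 z) p = if pat z p ∈ 𝒜 then ∅ else pat z p := by
    intro p hp
    ext i
    rw [mem_pat, dvd_co_iff 𝒜 (hz i) hp]
    split_ifs with h
    · exact ⟨fun h1 => absurd h h1.2, fun h1 => absurd h1 (notMem_empty i)⟩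
    · rw [mem_pat]
      exact ⟨fun h1 => h1.1, fun h1 => ⟨h1, h⟩⟩
  split_ifs with hFA
  · unfold rd
    apply Finset.prod_eq_one
    intro p hp
    rw [mem_rdset hw hF] at hp
    exfalso
    obtain ⟨h1, h2⟩ := hp
    rw [hpat p h1] at h2
    split_ifs at h2 with h3
    · exact hF.ne_empty h2.symm
    · rw [h2] at h3
      exact h3 hFA
  · unfold rd
    congr 1
    ext p
    rw [mem_rdset hw hF, mem_rdset hz hF]
    constructor
    · rintro ⟨h1, h2⟩
      refine ⟨h1, ?_⟩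
      rw [hpat p h1] at h2
      split_ifs at h2 with h3
      · exact absurd h2.symm hF.ne_empty
      · exact h2
    · rintro ⟨h1, h2⟩
      refine ⟨h1, ?_⟩
      rw [hpat p h1, h2, if_neg hFA]

private theorem abs_le_of_dvd {a b : ℤ} (h : a ∣ b) (hb : b ≠ 0) : |a| ≤ |b| := by
  have h1 := Int.natAbs_le_of_dvd_ne_zero h hb
  rw [Int.abs_eq_natAbs, Int.abs_eq_natAbs]
  exact_mod_cast h1

theorem Adm.part (𝒜 : Finset (Finset (Fin n))) (hM : ∀ F, 1 ≤ M F) {z : Fin n → ℤ}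
    (h : Adm B M z) : Adm B (Mr 𝒜 M) (PSV.part 𝒜 z) := by
  have hw : ∀ i, PSV.part 𝒜 z i ≠ 0 := fun i => (part_pos 𝒜 z i).ne'
  refine ⟨hw, fun i => ?_, fun F => ?_⟩
  · exact (abs_le_of_dvd (part_dvd 𝒜 z i) (h.ne_zero i)).trans (h.le i)
  · unfold Mr
    rcases F.eq_empty_or_nonempty with h0 | h0
    · rw [h0, rd_empty hw]
      split_ifs
      · exact_mod_cast hM ∅
      · exact le_of_eq Nat.cast_one
    · rw [rd_part 𝒜 h.ne_zero F h0]
      split_ifs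
      · exact h.rd_le F
      · exact le_of_eq Nat.cast_one

theorem Adm.co (𝒜 : Finset (Finset (Fin n))) (hM : ∀ F, 1 ≤ M F) {z : Fin n → ℤ}
    (h : Adm B M z) : Adm B (Mr 𝒜ᶜ M) (PSV.co 𝒜 z) := by
  have hw : ∀ i, PSV.co 𝒜 z i ≠ 0 := fun i => co_ne_zero 𝒜 (h.ne_zero i)
  refine ⟨hw, fun i => ?_, fun F => ?_⟩
  · have h1 : PSV.co 𝒜 z i ∣ z i := by
      have h2 := congrFun (part_mul_co 𝒜 z) i
      rw [Pi.mul_apply] at h2
      exact ⟨PSV.part 𝒜 z i, by rw [mul_comm]; exact h2.symm⟩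
    exact (abs_le_of_dvd h1 (h.ne_zero i)).trans (h.le i)
  · unfold Mr
    rcases F.eq_empty_or_nonempty with h0 | h0
    · rw [h0, rd_empty hw]
      split_ifs
      · exact_mod_cast hM ∅
      · exact le_of_eq Nat.cast_one
    · rw [rd_co 𝒜 h.ne_zero F h0]
      by_cases hF : F ∈ 𝒜
      · rw [if_pos hF, if_neg (by rw [mem_compl]; exact fun h1 => h1 hF)]
        exact le_of_eq Nat.cast_one
      · rw [if_neg hF, if_pos (mem_compl.2 hF)]
        exact h.rd_le F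

theorem Bds.mr (𝒜 : Finset (Finset (Fin n))) (hM : Bds M) : Bds (Mr 𝒜 M) := by
  refine ⟨fun F => ?_, ?_⟩
  · unfold Mr
    split_ifs
    · exact hM.one_le F
    · exact le_rfl
  · unfold Mr
    split_ifs
    · exact hM.univ_eq
    · rfl

theorem prod_Mr (𝒜 : Finset (Finset (Fin n))) (M : Finset (Fin n) → ℝ) :
    ∏ F, Mr 𝒜 M F = ∏ F ∈ 𝒜, M F := by
  unfold Mr
  rw [Finset.prod_ite_mem, Finset.univ_inter]

theorem not_dvd_all (hM : Bds M) {z : Fin n → ℤ} (h : Adm B M z) {p : ℕ} (hp : p.Prime)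
    (hn : 0 < n) : pat z p ≠ univ := by
  intro h0
  have h1 : (⟨0, hn⟩ : Fin n) ∈ pat z p := by
    rw [h0]
    exact mem_univ _
  rw [mem_pat] at h1
  have h2 := dvd_rd h.ne_zero hp h1
  rw [h0] at h2
  have h3 := Nat.le_of_dvd (rd_pos univ z) h2
  have h4 := h.rd_le univ
  rw [hM.univ_eq] at h4
  have h5 : rd univ z ≤ 1 := by exact_mod_cast h4
  have h6 := hp.two_le
  omega

end Pool.Agent.PSV
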