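import Pool.Agent.PSV.Defs

/-!
# Facts about `Big`

PROOFS. `Big.mono`: `(2B)^m' ≤ (2B)^m` (`Nat.pow_le_pow_right`). `Big.four_le`, `Big.sq_le`: drop the
non-negative terms of `log_le` (`Real.log_nonneg`, `2B+1 ≥ 1`). `Big.log_le'`: `log((2B+1)^n + 1) ≤
log(2 (2B+1)^n) = log 2 + n log(2B+1) ≤ 1 + n log(2B+1)`. `exists_big`: from `H4Cnt.rankin δ'` with
`δ' = δ/(m+2)` and `H4Cnt.card_smoothZ_le`: for `0 < E ≤ (2B)^m`: card ≤ 2 A (B^δ' E^δ') ≤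
2 A (2^m)^δ' B^((m+1) δ') ≤ A' B^δ (B ≥ 1); and `n log(2B+1) ≤ n (3B)^δ / δ ≤ A'' B^δ`
(`Real.log_le_rpow_div`); take `A := A' + A'' + n^2 + 4`, using `1 ≤ B^δ`.
-/

namespace Pool.Agent.PSV

open Finset

variable {n B m : ℕ} {K : ℝ}

theorem Big.mono {m' : ℕ} (h : Big n B m K) (hm : m' ≤ m) (hB : 1 ≤ B) : Big n B m' K := by
  refine ⟨fun E hE hEB => h.smooth E hE (hEB.trans ?_), h.log_le⟩
  exact Nat.pow_le_pow_right (by omega) hm

theorem Big.four_le (h : Big n B m K) : 4 ≤ K := by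
  have h1 := h.log_le
  have h2 : 0 ≤ Real.log (2 * B + 1) := Real.log_nonneg (by
    have : (0 : ℝ) ≤ B := Nat.cast_nonneg B
    linarith)
  have h3 : 0 ≤ (n : ℝ) * Real.log (2 * B + 1) := mul_nonneg (Nat.cast_nonneg n) h2
  have h4 : 0 ≤ (n : ℝ) ^ 2 := sq_nonneg _
  linarith

theorem Big.sq_le (h : Big n B m K) : (n : ℝ) ^ 2 ≤ K := by
  have h1 := h.log_le
  have h2 : 0 ≤ Real.log (2 * B + 1) := Real.log_nonneg (by
    have : (0 : ℝ) ≤ B := Nat.cast_nonneg B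
    linarith)
  have h3 : 0 ≤ (n : ℝ) * Real.log (2 * B + 1) := mul_nonneg (Nat.cast_nonneg n) h2
  linarith

theorem Big.log_le' (h : Big n B m K) : 2 + Real.log ((2 * B + 1 : ℝ) ^ n + 1) ≤ K := by
  have h1 := h.log_le
  have hB0 : (0 : ℝ) ≤ B := Nat.cast_nonneg B
  have hb : (1 : ℝ) ≤ 2 * B + 1 := by linarith
  have h2 : 0 ≤ (n : ℝ) ^ 2 := sq_nonneg _
  have hp : (1 : ℝ) ≤ (2 * B + 1 : ℝ) ^ n := one_le_pow₀ hb
  have h3 : Real.log ((2 * B + 1 : ℝ) ^ n + 1) ≤ 1 + n * Real.log (2 * B + 1) := by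
    calc Real.log ((2 * B + 1 : ℝ) ^ n + 1) ≤ Real.log (2 * (2 * B + 1 : ℝ) ^ n) :=
          Real.log_le_log (by positivity) (by linarith)
      _ = Real.log 2 + n * Real.log (2 * B + 1) := by
          rw [Real.log_mul (by norm_num) (by positivity), Real.log_pow]
      _ ≤ 1 + n * Real.log (2 * B + 1) := by
          have : Real.log 2 ≤ 1 := by
            have := Real.log_two_lt_d9
            linarith
          linarith
  linarith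

theorem exists_big (n m : ℕ) (δ : ℝ) (hδ : 0 < δ) :
    ∃ A : ℝ, 1 ≤ A ∧ ∀ B : ℕ, 1 ≤ B → Big n B m (A * (B : ℝ) ^ δ) := by
  have hm0 : (0 : ℝ) ≤ m := Nat.cast_nonneg m
  have hn0 : (0 : ℝ) ≤ n := Nat.cast_nonneg n
  have hm2 : (0 : ℝ) < (m : ℝ) + 2 := by linarith
  obtain ⟨A0, hA0, hR⟩ := H4Cnt.rankin (δ / (m + 2)) (by positivity)
  have hδ' : 0 < δ / ((m : ℝ) + 2) := by positivity
  refine ⟨2 * A0 * ((2 : ℝ) ^ m) ^ (δ / (m + 2)) + ((n : ℝ) ^ 2 + 4) + n * ((3 : ℝ) ^ δ / δ), ?_, ?_⟩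
  · have h1 : 0 ≤ 2 * A0 * ((2 : ℝ) ^ m) ^ (δ / ((m : ℝ) + 2)) := by positivity
    have h2 : 0 ≤ (n : ℝ) * ((3 : ℝ) ^ δ / δ) := by positivity
    have h3 : 0 ≤ (n : ℝ) ^ 2 := sq_nonneg _
    linarith
  · intro B hB
    have hB1 : (1 : ℝ) ≤ B := by exact_mod_cast hB
    have hBδ : (1 : ℝ) ≤ (B : ℝ) ^ δ := Real.one_le_rpow hB1 hδ.le
    have t1 : 0 ≤ 2 * A0 * ((2 : ℝ) ^ m) ^ (δ / ((m : ℝ) + 2)) := by positivity
    have t2 : 0 ≤ (n : ℝ) * ((3 : ℝ) ^ δ / δ) := by positivity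
    have t3 : 0 ≤ (n : ℝ) ^ 2 + 4 := by positivity
    refine ⟨?_, ?_⟩
    · intro E hE hEB
      have h1 : ((H4Cnt.smoothZ E B).card : ℝ) ≤ 2 * ((H4Cnt.smoothN E B).card : ℝ) := by
        exact_mod_cast H4Cnt.card_smoothZ_le E B
      have h2 := hR E B hE
      have hE' : (E : ℝ) ^ (δ / ((m : ℝ) + 2)) ≤
          ((2 : ℝ) ^ m) ^ (δ / ((m : ℝ) + 2)) * ((B : ℝ) ^ m) ^ (δ / ((m : ℝ) + 2)) := by
        rw [← Real.mul_rpow (by positivity) (by positivity), ← mul_pow]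
        refine Real.rpow_le_rpow (Nat.cast_nonneg E) ?_ hδ'.le
        exact_mod_cast hEB
      have hpow : (B : ℝ) ^ (δ / ((m : ℝ) + 2)) * ((B : ℝ) ^ m) ^ (δ / ((m : ℝ) + 2)) ≤
          (B : ℝ) ^ δ := by
        rw [← Real.rpow_natCast (B : ℝ) m, ← Real.rpow_mul (by linarith),
          ← Real.rpow_add (by linarith)]
        refine Real.rpow_le_rpow_of_exponent_le hB1 ?_
        rw [← sub_nonneg]
        have e : δ - (δ / ((m : ℝ) + 2) + (m : ℝ) * (δ / ((m : ℝ) + 2))) =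
            δ / ((m : ℝ) + 2) := by
          field_simp
          ring
        rw [e]
        exact hδ'.le
      calc ((H4Cnt.smoothZ E B).card : ℝ) ≤ 2 * ((H4Cnt.smoothN E B).card : ℝ) := h1
        _ ≤ 2 * (A0 * ((B : ℝ) ^ (δ / ((m : ℝ) + 2)) * (E : ℝ) ^ (δ / ((m : ℝ) + 2)))) := by
            linarith
        _ ≤ 2 * (A0 * ((B : ℝ) ^ (δ / ((m : ℝ) + 2)) *
              (((2 : ℝ) ^ m) ^ (δ / ((m : ℝ) + 2)) * ((B : ℝ) ^ m) ^ (δ / ((m : ℝ) + 2))))) := by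
            gcongr
        _ = 2 * A0 * ((2 : ℝ) ^ m) ^ (δ / ((m : ℝ) + 2)) *
              ((B : ℝ) ^ (δ / ((m : ℝ) + 2)) * ((B : ℝ) ^ m) ^ (δ / ((m : ℝ) + 2))) := by ring
        _ ≤ 2 * A0 * ((2 : ℝ) ^ m) ^ (δ / ((m : ℝ) + 2)) * (B : ℝ) ^ δ :=
            mul_le_mul_of_nonneg_left hpow t1
        _ ≤ _ := by
            refine mul_le_mul_of_nonneg_right ?_ (by positivity)
            linarith
    · have h1 : Real.log (2 * B + 1) ≤ (3 : ℝ) ^ δ / δ * (B : ℝ) ^ δ := by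
        calc Real.log (2 * B + 1) ≤ Real.log (3 * B) :=
              Real.log_le_log (by positivity) (by linarith)
          _ ≤ (3 * (B : ℝ)) ^ δ / δ := Real.log_le_rpow_div (by positivity) hδ
          _ = (3 : ℝ) ^ δ / δ * (B : ℝ) ^ δ := by
              rw [Real.mul_rpow (by norm_num) (by positivity)]
              ring
      have h2 : (n : ℝ) * Real.log (2 * B + 1) ≤ n * ((3 : ℝ) ^ δ / δ) * (B : ℝ) ^ δ := by
        calc (n : ℝ) * Real.log (2 * B + 1) ≤ n * ((3 : ℝ) ^ δ / δ * (B : ℝ) ^ δ) :=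
              mul_le_mul_of_nonneg_left h1 hn0
          _ = _ := by ring
      have h3 : (n : ℝ) ^ 2 + 4 ≤ ((n : ℝ) ^ 2 + 4) * (B : ℝ) ^ δ := le_mul_of_one_le_right t3 hBδ
      have h4 : 0 ≤ 2 * A0 * ((2 : ℝ) ^ m) ^ (δ / ((m : ℝ) + 2)) * (B : ℝ) ^ δ := by positivity
      calc (n : ℝ) ^ 2 + 4 + n * Real.log (2 * B + 1)
          ≤ ((n : ℝ) ^ 2 + 4) * (B : ℝ) ^ δ + n * ((3 : ℝ) ^ δ / δ) * (B : ℝ) ^ δ := by linarith
        _ ≤ _ := by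
            rw [add_mul, add_mul]
            linarith

end Pool.Agent.PSV
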