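import Mathlib

/-!
# Two samples (Cauchy-Schwarz)

PROOF. `N c = |{y ∈ Y | sol c y}|`. If `N c ≤ 2 K1`: contributes at most `2 K1`. For the other `c`
(call them `C'`): the pairs `(y, y')` of elements of the fibre number `N c ^ 2`, the bad ones at most
`N c * K1 ≤ N c ^ 2 / 2` (`hbad`), so at least `N c ^ 2 / 2` good pairs. Sum over `c ∈ C'` and exchange:
`∑_(c ∈ C') N c ^ 2 ≤ 2 ∑_(good (y,y') ∈ Y × Y) |{c | sol c y ∧ sol c y'}| ≤ 2 |Y|^2 G`. Cauchy-Schwarz
(`sq_sum_le_card_mul_sum_sq`): `(∑_(C') N c)^2 ≤ |C'| ∑ N c ^ 2 ≤ 2 |C| |Y|^2 G`; take the root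
(`Real.le_sqrt`).
-/

namespace Pool.Agent.PSV

open Finset

open scoped Classical in
theorem cauchy2 {α β : Type*} (Y : Finset α) (C : Finset β) (sol : β → α → Prop)
    (bad : α → α → Prop) (K1 G : ℝ) (hK1 : 0 ≤ K1) (hG : 0 ≤ G)
    (hbad : ∀ c ∈ C, ∀ y ∈ Y, sol c y →
      ((Y.filter fun y' => sol c y' ∧ bad y y').card : ℝ) ≤ K1)
    (hgood : ∀ y ∈ Y, ∀ y' ∈ Y, ¬ bad y y' →
      ((C.filter fun c => sol c y ∧ sol c y').card : ℝ) ≤ G) :
    (∑ c ∈ C, ((Y.filter (sol c)).card : ℝ)) ≤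
      2 * K1 * C.card + Real.sqrt (2 * C.card * (Y.card : ℝ) ^ 2 * G) := by
  set N : β → ℝ := fun c => ((Y.filter (sol c)).card : ℝ) with hN
  have hN0 : ∀ c, 0 ≤ N c := fun c => Nat.cast_nonneg _
  have hNs : ∀ c, N c = ∑ y ∈ Y, if sol c y then (1 : ℝ) else 0 := by
    intro c
    rw [hN]
    simp only [Finset.sum_boole]
  set g : β → ℝ := fun c => ∑ y ∈ Y, ∑ y' ∈ Y,
    if (sol c y ∧ sol c y') ∧ ¬ bad y y' then (1 : ℝ) else 0 with hg
  have hg0 : ∀ c, 0 ≤ g c := fun c =>
    Finset.sum_nonneg fun y _ => Finset.sum_nonneg fun y' _ => by split_ifs <;> norm_num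
  set C' := C.filter (fun c => 2 * K1 < N c) with hC'
  -- pairs in a fibre
  have hpair : ∀ c ∈ C, N c ^ 2 ≤ N c * K1 + g c := by
    intro c hc
    have h1 : N c ^ 2 = ∑ y ∈ Y, ∑ y' ∈ Y,
        (if sol c y then (1 : ℝ) else 0) * (if sol c y' then (1 : ℝ) else 0) := by
      rw [pow_two, hNs c, Finset.sum_mul_sum]
    have h2 : ∑ y ∈ Y, ∑ y' ∈ Y,
        (if sol c y then (1 : ℝ) else 0) * (if sol c y' then (1 : ℝ) else 0) ≤
        ∑ y ∈ Y, ((if sol c y then (1 : ℝ) else 0) * K1 + ∑ y' ∈ Y,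
          if (sol c y ∧ sol c y') ∧ ¬ bad y y' then (1 : ℝ) else 0) := by
      refine Finset.sum_le_sum fun y hy => ?_
      by_cases hs : sol c y
      · have h3 := hbad c hc y hy hs
        rw [if_pos hs, one_mul]
        have h4 : ((Y.filter fun y' => sol c y' ∧ bad y y').card : ℝ) =
            ∑ y' ∈ Y, if (sol c y' ∧ bad y y') then (1 : ℝ) else 0 := by
          simp only [Finset.sum_boole]
        rw [h4] at h3
        have h5 : ∑ y' ∈ Y, (1 : ℝ) * (if sol c y' then (1 : ℝ) else 0) ≤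
            (∑ y' ∈ Y, if (sol c y' ∧ bad y y') then (1 : ℝ) else 0) +
            ∑ y' ∈ Y, if (sol c y ∧ sol c y') ∧ ¬ bad y y' then (1 : ℝ) else 0 := by
          rw [← Finset.sum_add_distrib]
          refine Finset.sum_le_sum fun y' _ => ?_
          by_cases h6 : sol c y' <;> by_cases h7 : bad y y' <;> simp [h6, h7, hs]
        linarith
      · rw [if_neg hs]
        simp only [zero_mul, Finset.sum_const_zero, zero_add]
        exact Finset.sum_nonneg fun y' _ => by split_ifs <;> norm_num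
    rw [h1]
    refine h2.trans (le_of_eq ?_)
    rw [Finset.sum_add_distrib, ← Finset.sum_mul, ← hNs c]
  have hsq : ∀ c ∈ C', N c ^ 2 ≤ 2 * g c := by
    intro c hc
    rw [hC', Finset.mem_filter] at hc
    have h1 := hpair c hc.1
    have h2 : N c * K1 ≤ N c ^ 2 / 2 := by
      have := hN0 c
      nlinarith [hc.2]
    linarith
  -- exchange
  have hex : ∑ c ∈ C, g c ≤ (Y.card : ℝ) ^ 2 * G := by
    have h1 : ∑ c ∈ C, g c = ∑ y ∈ Y, ∑ y' ∈ Y, ∑ c ∈ C,
        if (sol c y ∧ sol c y') ∧ ¬ bad y y' then (1 : ℝ) else 0 := by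
      simp only [hg]
      rw [Finset.sum_comm]
      refine Finset.sum_congr rfl fun y _ => ?_
      rw [Finset.sum_comm]
    rw [h1]
    calc ∑ y ∈ Y, ∑ y' ∈ Y, ∑ c ∈ C,
          (if (sol c y ∧ sol c y') ∧ ¬ bad y y' then (1 : ℝ) else 0)
        ≤ ∑ _y ∈ Y, ∑ _y' ∈ Y, G := by
          refine Finset.sum_le_sum fun y hy => Finset.sum_le_sum fun y' hy' => ?_
          by_cases h2 : bad y y'
          · have h3 : ∑ c ∈ C, (if (sol c y ∧ sol c y') ∧ ¬ bad y y' then (1 : ℝ) else 0) = 0 :=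
              Finset.sum_eq_zero fun c _ => by simp [h2]
            rw [h3]
            exact hG
          · have h3 := hgood y hy y' hy' h2
            have h4 : ∑ c ∈ C, (if (sol c y ∧ sol c y') ∧ ¬ bad y y' then (1 : ℝ) else 0) =
                ((C.filter fun c => sol c y ∧ sol c y').card : ℝ) := by
              have h5 : ∀ c ∈ C, (if (sol c y ∧ sol c y') ∧ ¬ bad y y' then (1 : ℝ) else 0) =
                  if (sol c y ∧ sol c y') then (1 : ℝ) else 0 := by
                intro c _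
                by_cases h6 : (sol c y ∧ sol c y')
                · rw [if_pos h6, if_pos ⟨h6, h2⟩]
                · rw [if_neg h6, if_neg (fun h => h6 h.1)]
              rw [Finset.sum_congr rfl h5]
              simp only [Finset.sum_boole]
            rw [h4]
            exact h3
      _ = (Y.card : ℝ) ^ 2 * G := by
          simp only [Finset.sum_const, nsmul_eq_mul]
          ring
  -- Cauchy-Schwarz on the rich fibres
  have hCS : (∑ c ∈ C', N c) ^ 2 ≤ 2 * C.card * (Y.card : ℝ) ^ 2 * G := by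
    have h1 := sq_sum_le_card_mul_sum_sq (s := C') (f := N)
    have h2 : ∑ c ∈ C', N c ^ 2 ≤ 2 * ((Y.card : ℝ) ^ 2 * G) := by
      calc ∑ c ∈ C', N c ^ 2 ≤ ∑ c ∈ C', 2 * g c := Finset.sum_le_sum hsq
        _ ≤ ∑ c ∈ C, 2 * g c := by
            refine Finset.sum_le_sum_of_subset_of_nonneg (Finset.filter_subset _ _) ?_
            intro c _ _
            have := hg0 c
            linarith
        _ = 2 * ∑ c ∈ C, g c := by rw [Finset.mul_sum]
        _ ≤ _ := mul_le_mul_of_nonneg_left hex (by norm_num)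
    have h3 : (C'.card : ℝ) ≤ C.card := by
      exact_mod_cast Finset.card_le_card (Finset.filter_subset _ _)
    calc (∑ c ∈ C', N c) ^ 2 ≤ (C'.card : ℝ) * ∑ c ∈ C', N c ^ 2 := h1
      _ ≤ (C.card : ℝ) * (2 * ((Y.card : ℝ) ^ 2 * G)) := by
          apply mul_le_mul h3 h2 _ (Nat.cast_nonneg _)
          exact Finset.sum_nonneg fun c _ => sq_nonneg _
      _ = _ := by ring
  have hrich : ∑ c ∈ C', N c ≤ Real.sqrt (2 * C.card * (Y.card : ℝ) ^ 2 * G) :=
    Real.le_sqrt_of_sq_le hCS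
  have hpoor : ∑ c ∈ C.filter (fun c => ¬ 2 * K1 < N c), N c ≤ 2 * K1 * C.card := by
    calc ∑ c ∈ C.filter (fun c => ¬ 2 * K1 < N c), N c
        ≤ ∑ _c ∈ C.filter (fun c => ¬ 2 * K1 < N c), 2 * K1 := by
          refine Finset.sum_le_sum fun c hc => ?_
          rw [Finset.mem_filter] at hc
          exact not_lt.1 hc.2
      _ ≤ ∑ _c ∈ C, 2 * K1 := by
          refine Finset.sum_le_sum_of_subset_of_nonneg (Finset.filter_subset _ _) ?_
          intro c _ _
          positivity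
      _ = 2 * K1 * C.card := by rw [Finset.sum_const, nsmul_eq_mul]; ring
  rw [← Finset.sum_filter_add_sum_filter_not C (fun c => 2 * K1 < N c) (fun c => N c)]
  linarith

end Pool.Agent.PSV
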