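import Mathlib

/-!
# Choosing a subfamily with product in a short interval

PROOF. Among the subsets `t ⊆ s` with `x ≤ ∏ t` take one of minimal cardinality (`s` itself is one). If
`t` is empty the product is `1 ≤ x < x σ`. Otherwise pick `i ∈ t`: by minimality
`∏ (t.erase i) < x`, so `∏ t = f i * ∏ (t.erase i) < σ x` (`0 < f i < σ`, `∏ ≥ 1`).
-/

namespace Pool.Agent.PSV

open Finset

theorem exists_sub_prod {ι : Type*} [DecidableEq ι] (s : Finset ι) (f : ι → ℝ) (x σ : ℝ)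
    (hx : 1 ≤ x) (hσ : 1 < σ) (h1 : ∀ i ∈ s, 1 ≤ f i) (h2 : ∀ i ∈ s, f i < σ)
    (hs : x ≤ ∏ i ∈ s, f i) : ∃ t ⊆ s, x ≤ ∏ i ∈ t, f i ∧ ∏ i ∈ t, f i < x * σ := by
  classical
  have hne : (s.powerset.filter (fun t => x ≤ ∏ i ∈ t, f i)).Nonempty :=
    ⟨s, mem_filter.2 ⟨mem_powerset.2 Subset.rfl, hs⟩⟩
  obtain ⟨t, ht, hmin⟩ := exists_min_image _ (fun t : Finset ι => t.card) hne
  rw [mem_filter, mem_powerset] at ht
  obtain ⟨hts, hxt⟩ := ht
  refine ⟨t, hts, hxt, ?_⟩
  rcases t.eq_empty_or_nonempty with h0 | ⟨i, hi⟩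
  · rw [h0, prod_empty]
    nlinarith
  · have hfi : 1 ≤ f i := h1 i (hts hi)
    have hlt : ∏ j ∈ t.erase i, f j < x := by
      by_contra hc
      push Not at hc
      have h3 := hmin (t.erase i) (mem_filter.2
        ⟨mem_powerset.2 ((erase_subset i t).trans hts), hc⟩)
      have h4 := card_erase_lt_of_mem hi
      omega
    rw [← mul_prod_erase t f hi, mul_comm]
    have hpos : 0 < ∏ j ∈ t.erase i, f j :=
      prod_pos fun j hj => lt_of_lt_of_le one_pos (h1 j (hts (mem_of_mem_erase hj)))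
    have h5 : f i < σ := h2 i (hts hi)
    calc (∏ j ∈ t.erase i, f j) * f i < x * f i := mul_lt_mul_of_pos_right hlt (by linarith)
      _ ≤ x * σ := mul_le_mul_of_nonneg_left h5.le (by linarith)

end Pool.Agent.PSV
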