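import Pool.Agent.PSV.PartAdm
import Pool.Agent.PSV.BigL

/-!
# Counting admissible vectors and their coordinates

PROOFS. `card_by_rd`: put `r(z) = (rd F z)_(F ∈ 𝒢)`, a function from `𝒢` to the natural numbers with
`1 ≤ r F ≤ ⌊M F⌋`; it takes at most `∏ F ∈ 𝒢, ⌊M F⌋ ≤ ∏ M F` values (`Fintype.piFinset` of
`Icc 1 ⌊M F⌋₊`, or `Finset.pi`), and each fibre of `r` gives at most `X` values of `f`
(`Finset.card_le_mul_card_image` applied to the image, or count the pairs `(r z, f z)`).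
`card_coord`: `𝒢 = {F | i ∈ F}`, `f z = z i`: for fixed `r = (rd F z)` all `z i` lie in
`smoothZ (∏ F, r F) B` (`H4Cnt.mem_smoothZ`: a prime `p ∣ z i` has `i ∈ pat z p` and `p ∣ rd (pat z p) z`
by `dvd_rd`), and `∏ r F ≤ B ^ n ≤ (2B)^m` by `prod_rd_le_pow`.
`card_adm`: `𝒢 = univ`, `f = id`: all coordinates of `z` lie in `smoothZ (∏ r F) B`, so at most
`K ^ n` vectors (`Fintype.piFinset`, `Fintype.card_piFinset`).
-/

namespace Pool.Agent.PSV

open Finset

variable {n B m : ℕ} {K : ℝ} {M : Finset (Fin n) → ℝ}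

theorem card_by_rd {γ : Type*} [DecidableEq γ] (hM : ∀ F, 1 ≤ M F) (𝒢 : Finset (Finset (Fin n)))
    (Z : Finset (Fin n → ℤ)) (hZ : ∀ z ∈ Z, Adm B M z) (f : (Fin n → ℤ) → γ) (X : ℝ) (hX0 : 0 ≤ X)
    (hX : ∀ z₀ ∈ Z, (((Z.filter fun z => ∀ F ∈ 𝒢, rd F z = rd F z₀).image f).card : ℝ) ≤ X) :
    ((Z.image f).card : ℝ) ≤ X * ∏ F ∈ 𝒢, M F := by
  classical
  obtain ⟨r, hr⟩ : ∃ r : (Fin n → ℤ) → (Finset (Fin n) → ℕ),
      r = fun z F => if F ∈ 𝒢 then rd F z else 1 := ⟨_, rfl⟩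
  have hrr : ∀ z z₀ : Fin n → ℤ, r z = r z₀ ↔ ∀ F ∈ 𝒢, rd F z = rd F z₀ := by
    intro z z₀
    rw [hr]
    constructor
    · intro h F hF
      have := congrFun h F
      simpa [hF] using this
    · intro h
      funext F
      by_cases hF : F ∈ 𝒢
      · simp only [hF, if_true]
        exact h F hF
      · simp only [hF, if_false]
  have hR : ((Z.image r).card : ℝ) ≤ ∏ F ∈ 𝒢, M F := by
    have hsub : Z.image r ⊆ Fintype.piFinset
        (fun F : Finset (Fin n) => if F ∈ 𝒢 then Icc 1 ⌊M F⌋₊ else {1}) := by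
      intro ρ hρ
      rw [mem_image] at hρ
      obtain ⟨z, hz, rfl⟩ := hρ
      rw [Fintype.mem_piFinset]
      intro F
      rw [hr]
      by_cases hF : F ∈ 𝒢
      · simp only [hF, if_true, mem_Icc]
        exact ⟨rd_pos F z, Nat.le_floor ((hZ z hz).rd_le F)⟩
      · simp only [hF, if_false, mem_singleton]
    have h1 := card_le_card hsub
    rw [Fintype.card_piFinset] at h1
    have h2 : ((∏ F : Finset (Fin n), (if F ∈ 𝒢 then Icc 1 ⌊M F⌋₊ else {1} : Finset ℕ).card : ℕ) : ℝ) ≤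
        ∏ F ∈ 𝒢, M F := by
      push_cast
      rw [← Finset.prod_filter_mul_prod_filter_not univ (fun F => F ∈ 𝒢)]
      have e1 : ∏ F ∈ univ.filter (fun F : Finset (Fin n) => ¬ F ∈ 𝒢),
          (((if F ∈ 𝒢 then Icc 1 ⌊M F⌋₊ else {1} : Finset ℕ).card : ℕ) : ℝ) = 1 := by
        apply Finset.prod_eq_one
        intro F hF
        rw [mem_filter] at hF
        rw [if_neg hF.2]
        simp
      rw [e1, mul_one]
      have e2 : univ.filter (fun F : Finset (Fin n) => F ∈ 𝒢) = 𝒢 := by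
        ext F
        simp
      rw [e2]
      apply Finset.prod_le_prod
      · intro F _
        positivity
      · intro F hF
        rw [if_pos hF, Nat.card_Icc]
        simp only [add_tsub_cancel_right]
        exact Nat.floor_le (le_trans zero_le_one (hM F))
    exact le_trans (by exact_mod_cast h1) h2
  have hcov : Z.image f ⊆ (Z.image r).biUnion (fun ρ => (Z.filter (fun z => r z = ρ)).image f) := by
    intro y hy
    rw [mem_image] at hy
    obtain ⟨z, hz, rfl⟩ := hy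
    rw [mem_biUnion]
    exact ⟨r z, mem_image_of_mem r hz, mem_image_of_mem f (mem_filter.2 ⟨hz, rfl⟩)⟩
  have hc1 : ((Z.image f).card : ℝ) ≤ ∑ ρ ∈ Z.image r,
      (((Z.filter (fun z => r z = ρ)).image f).card : ℝ) := by
    have h1 := (card_le_card hcov).trans card_biUnion_le
    exact_mod_cast h1
  have hc2 : ∀ ρ ∈ Z.image r, (((Z.filter (fun z => r z = ρ)).image f).card : ℝ) ≤ X := by
    intro ρ hρ
    rw [mem_image] at hρ
    obtain ⟨z₀, hz₀, rfl⟩ := hρ
    have h1 := hX z₀ hz₀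
    have h2 : (Z.filter (fun z => r z = r z₀)) = Z.filter (fun z => ∀ F ∈ 𝒢, rd F z = rd F z₀) := by
      apply filter_congr
      intro z _
      exact hrr z z₀
    rw [h2]
    exact h1
  calc ((Z.image f).card : ℝ) ≤ ∑ ρ ∈ Z.image r,
        (((Z.filter (fun z => r z = ρ)).image f).card : ℝ) := hc1
    _ ≤ ∑ ρ ∈ Z.image r, X := Finset.sum_le_sum hc2
    _ = ((Z.image r).card : ℝ) * X := by rw [sum_const, nsmul_eq_mul]
    _ ≤ (∏ F ∈ 𝒢, M F) * X := mul_le_mul_of_nonneg_right hR hX0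
    _ = _ := mul_comm _ _

theorem card_adm (hB : 1 ≤ B) (hK : Big n B m K) (hm : n ≤ m) (hM : ∀ F, 1 ≤ M F)
    (Z : Finset (Fin n → ℤ)) (hZ : ∀ z ∈ Z, Adm B M z) :
    (Z.card : ℝ) ≤ K ^ n * ∏ F, M F := by
  classical
  have hK0 : (0 : ℝ) ≤ K := by linarith [hK.four_le]
  have h := card_by_rd hM univ Z hZ (fun z => z) (K ^ n) (by positivity) (by
    intro z₀ hz₀
    have hE0 : 0 < ∏ F : Finset (Fin n), rd F z₀ := Finset.prod_pos (fun F _ => rd_pos F z₀)
    have hE1 : ∏ F : Finset (Fin n), rd F z₀ ≤ (2 * B) ^ m := by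
      have h1 := prod_rd_le_pow univ (hZ z₀ hz₀).ne_zero (hZ z₀ hz₀).le
      have h2 : B ^ n ≤ (2 * B) ^ n := Nat.pow_le_pow_left (by omega) n
      have h3 : (2 * B) ^ n ≤ (2 * B) ^ m := Nat.pow_le_pow_right (by omega) hm
      exact h1.trans (h2.trans h3)
    have hsub : (Z.filter fun z => ∀ F ∈ (univ : Finset (Finset (Fin n))), rd F z = rd F z₀).image
        (fun z => z) ⊆ Fintype.piFinset
          (fun _ : Fin n => H4Cnt.smoothZ (∏ F : Finset (Fin n), rd F z₀) B) := by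
      intro z hz
      rw [mem_image] at hz
      obtain ⟨z', hz', rfl⟩ := hz
      rw [mem_filter] at hz'
      rw [Fintype.mem_piFinset]
      intro i
      have ha := hZ z' hz'.1
      apply H4Cnt.mem_smoothZ _ _ _ (ha.ne_zero i) (ha.le i)
      intro p hp hpz
      have h1 := dvd_rd ha.ne_zero hp hpz
      rw [hz'.2 _ (mem_univ _)] at h1
      exact h1.trans (Finset.dvd_prod_of_mem (fun F => rd F z₀) (mem_univ (pat z' p)))
    have h1 := card_le_card hsub
    rw [Fintype.card_piFinset] at h1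
    simp only [prod_const, card_univ, Fintype.card_fin] at h1
    have h2 := hK.smooth _ hE0 hE1
    calc _ ≤ (((H4Cnt.smoothZ (∏ F : Finset (Fin n), rd F z₀) B).card ^ n : ℕ) : ℝ) := by
          exact_mod_cast h1
      _ = ((H4Cnt.smoothZ (∏ F : Finset (Fin n), rd F z₀) B).card : ℝ) ^ n := by push_cast; rfl
      _ ≤ K ^ n := pow_le_pow_left₀ (by positivity) h2 n)
  rw [image_id'] at h
  exact h

theorem card_coord (hB : 1 ≤ B) (hK : Big n B m K) (hm : n ≤ m) (hM : ∀ F, 1 ≤ M F)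
    (Z : Finset (Fin n → ℤ)) (hZ : ∀ z ∈ Z, Adm B M z) (i : Fin n) :
    ((Z.image fun z => z i).card : ℝ) ≤ K * ∏ F ∈ univ.filter (fun F => i ∈ F), M F := by
  classical
  have hK0 : (0 : ℝ) ≤ K := by linarith [hK.four_le]
  apply card_by_rd hM _ Z hZ (fun z => z i) K hK0
  intro z₀ hz₀
  obtain ⟨𝒢, h𝒢⟩ : ∃ 𝒢 : Finset (Finset (Fin n)), 𝒢 = univ.filter (fun F => i ∈ F) := ⟨_, rfl⟩
  rw [← h𝒢]
  have hE0 : 0 < ∏ F ∈ 𝒢, rd F z₀ := Finset.prod_pos (fun F _ => rd_pos F z₀)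
  have hE1 : ∏ F ∈ 𝒢, rd F z₀ ≤ (2 * B) ^ m := by
    have h1 := prod_rd_le_pow 𝒢 (hZ z₀ hz₀).ne_zero (hZ z₀ hz₀).le
    have h2 : B ^ n ≤ (2 * B) ^ n := Nat.pow_le_pow_left (by omega) n
    have h3 : (2 * B) ^ n ≤ (2 * B) ^ m := Nat.pow_le_pow_right (by omega) hm
    exact h1.trans (h2.trans h3)
  have hsub : (Z.filter fun z => ∀ F ∈ 𝒢, rd F z = rd F z₀).image (fun z => z i) ⊆
      H4Cnt.smoothZ (∏ F ∈ 𝒢, rd F z₀) B := by
    intro y hy
    rw [mem_image] at hy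
    obtain ⟨z, hz, rfl⟩ := hy
    rw [mem_filter] at hz
    have ha := hZ z hz.1
    apply H4Cnt.mem_smoothZ _ _ _ (ha.ne_zero i) (ha.le i)
    intro p hp hpz
    have h1 := dvd_rd ha.ne_zero hp hpz
    have h2 : pat z p ∈ 𝒢 := by
      rw [h𝒢, mem_filter]
      exact ⟨mem_univ _, (mem_pat z p i).2 hpz⟩
    rw [hz.2 _ h2] at h1
    exact h1.trans (Finset.dvd_prod_of_mem (fun F => rd F z₀) h2)
  have h1 := card_le_card hsub
  have h2 := hK.smooth _ hE0 hE1
  exact le_trans (by exact_mod_cast h1) h2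

end Pool.Agent.PSV
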