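import Mathlib
import Pool.Agent.H4Cnt.Rankin

/-!
Definitions for the count of the integral points of small radical on linear spaces: types of
primes, parts of a vector, nondegenerate solutions of a system of linear equations.
-/

namespace Pool.Agent.PSV

open Finset

variable {n : ℕ}

/-- The set of coordinates divisible by `p`. -/
def pat (z : Fin n → ℤ) (p : ℕ) : Finset (Fin n) := univ.filter fun i => (p : ℤ) ∣ z i

/-- The primes dividing some coordinate. -/
def prs (z : Fin n → ℤ) : Finset ℕ := (∏ i, z i).natAbs.primeFactors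

/-- The product of the primes of type exactly `F`. -/
def rd (F : Finset (Fin n)) (z : Fin n → ℤ) : ℕ := ∏ p ∈ (prs z).filter (fun p => pat z p = F), p

/-- Vectors with non-zero coordinates of absolute value at most `B`, whose primes of type `F` have
product at most `M F`. -/
structure Adm (B : ℕ) (M : Finset (Fin n) → ℝ) (z : Fin n → ℤ) : Prop where
  ne_zero : ∀ i, z i ≠ 0
  le : ∀ i, |z i| ≤ B
  rd_le : ∀ F, (rd F z : ℝ) ≤ M F

/-- The part of `z` composed of the primes whose type belongs to `𝒜`. -/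
def part (𝒜 : Finset (Finset (Fin n))) (z : Fin n → ℤ) : Fin n → ℤ := fun i =>
  ∏ p ∈ (z i).natAbs.primeFactors.filter (fun p => pat z p ∈ 𝒜),
    (p : ℤ) ^ (z i).natAbs.factorization p

/-- The complementary part (with the signs of `z`). -/
def co (𝒜 : Finset (Finset (Fin n))) (z : Fin n → ℤ) : Fin n → ℤ := fun i => z i / part 𝒜 z i

/-- The bounds `M` restricted to the types in `𝒜`. -/
noncomputable def Mr (𝒜 : Finset (Finset (Fin n))) (M : Finset (Fin n) → ℝ) :
    Finset (Fin n) → ℝ := fun F => if F ∈ 𝒜 then M F else 1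

/-- Admissible families of bounds: all at least `1`, and no prime divides all coordinates. -/
structure Bds (M : Finset (Fin n) → ℝ) : Prop where
  one_le : ∀ F, 1 ≤ M F
  univ_eq : M univ = 1

/-- `z` is a solution of all the linear equations `l`, `l ∈ L`. -/
def Zer (L : Set (Fin n → ℤ)) (z : Fin n → ℤ) : Prop := ∀ l ∈ L, ∑ i, l i * z i = 0

/-- `z` is a nondegenerate solution: no proper part of `z` is a solution. -/
structure Sol (L : Set (Fin n → ℤ)) (z : Fin n → ℤ) : Prop where
  zer : Zer L z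
  nondeg : ∀ I : Finset (Fin n), I.Nonempty → I ≠ univ → ∃ l ∈ L, ∑ i ∈ I, l i * z i ≠ 0

/-- The rational vector of an integral vector. -/
def rat (z : Fin n → ℤ) : Fin n → ℚ := fun i => (z i : ℚ)

/-- The rational solution space. -/
def Perp (L : Set (Fin n → ℤ)) : Submodule ℚ (Fin n → ℚ) where
  carrier := {v | ∀ l ∈ L, ∑ i, (l i : ℚ) * v i = 0}
  zero_mem' := by
    intro l _
    simp
  add_mem' := by
    intro v w hv hw l hl
    have h1 := hv l hl
    have h2 := hw l hl
    simp only [Pi.add_apply, mul_add, sum_add_distrib, h1, h2, add_zero]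
  smul_mem' := by
    intro a v hv l hl
    have h1 := hv l hl
    simp only [Pi.smul_apply, smul_eq_mul]
    have h2 : ∑ i, (l i : ℚ) * (a * v i) = a * ∑ i, (l i : ℚ) * v i := by
      rw [mul_sum]
      exact sum_congr rfl fun i _ => by ring
    rw [h2, h1, mul_zero]

/-- The equations for `c` saying that `c * y` solves `L` for all `y ∈ Π`. -/
def had (L Y : Set (Fin n → ℤ)) : Set (Fin n → ℤ) := {m | ∃ l ∈ L, ∃ y ∈ Y, m = l * y}

/-- The entries of the elements of `L` are at most `(2 B) ^ k`. -/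
def Ent (B k : ℕ) (L : Set (Fin n → ℤ)) : Prop := ∀ l ∈ L, ∀ i, |l i| ≤ ((2 * B) ^ k : ℕ)

/-- The class of the coordinate `i` for the ratio `b / a`. -/
def cls (a b : Fin n → ℤ) (i : Fin n) : Finset (Fin n) := univ.filter fun k => a i * b k = a k * b i

/-- `K` is large: it bounds the number of integers up to `B` composed of the primes dividing a
given number `E ≤ (2 B) ^ m`, and some logarithms and constants. -/
structure Big (n B m : ℕ) (K : ℝ) : Prop where
  smooth : ∀ E : ℕ, 0 < E → E ≤ (2 * B) ^ m → ((H4Cnt.smoothZ E B).card : ℝ) ≤ K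
  log_le : (n : ℝ) ^ 2 + 4 + n * Real.log (2 * B + 1) ≤ K

/-- The counting statement: nondegenerate solutions in spaces of dimension at most `q` save the
exponent `1 / t`. -/
def Bnd (n q : ℕ) (t : ℝ) : Prop := ∀ k : ℕ, ∃ c m : ℕ, ∀ (B : ℕ) (K : ℝ), 1 ≤ B → Big n B m K →
  ∀ L : Set (Fin n → ℤ), Ent B k L → Module.finrank ℚ (Perp L) ≤ q →
  ∀ M : Finset (Fin n) → ℝ, Bds M → ∀ Z : Finset (Fin n → ℤ), (∀ z ∈ Z, Adm B M z ∧ Sol L z) →
    (Z.card : ℝ) ≤ K ^ c * (∏ F, M F) ^ (1 - 1 / t)

/-- The interface to the final theorem: nondegenerate solutions of `z 0 + ... + z (n-1) = 0` save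
the exponent `1 / t`. -/
def Cnt (n : ℕ) (t : ℝ) : Prop := ∀ δ : ℝ, 0 < δ → ∃ A : ℝ, ∀ B : ℕ, 1 ≤ B →
  ∀ M : Finset (Fin n) → ℝ, Bds M → ∀ Z : Finset (Fin n → ℤ),
    (∀ z ∈ Z, Adm B M z ∧ Sol {fun _ => 1} z) →
    (Z.card : ℝ) ≤ A * (B : ℝ) ^ δ * (∏ F, M F) ^ (1 - 1 / t)

end Pool.Agent.PSV
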