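import Pool.Agent.PSV.Count

/-!
# Admissible vectors in a rational plane

STATEMENT. `a, b` integral vectors with non-zero coordinates of absolute value at most `B`; the
coordinates `i, j` belong to different classes of `b / a`. Then the plane `span(a, b)` contains at most
`K^2 * M (cls a b i) * M (cls a b j)` vectors of a set of admissible vectors.

PROOF. Put `Δ k l = a k * b l - a l * b k`, `D = ∏_(k,l) (if Δ k l = 0 then 1 else |Δ k l|) * ∏ |a k|`,
a positive number `≤ (2B)^(2 n^2) * B^n` (`|Δ| ≤ 2 B^2 ≤ (2B)^2`). Let `z ∈ Z`, `z = s a + t b`.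
(1) For all `k, l, r`: `Δ k l * z r = Δ k r * z l - Δ l r * z k` (ring, from `z = s a + t b`).
(2) If `Δ k l = 0` then `z k * a l = z l * a k` (both sides are multiples: `a k z l - a l z k = t Δ k l`).
(3) Let the prime `p` divide `z k` and `p ∤ D`. Then `pat z p = cls a b k`. First `pat z p ≠ univ`
(`not_dvd_all`), fix `r` with `p ∤ z r`. If `p ∣ z l` then `Δ k l = 0`: otherwise `Δ k l ∣ D`, but by (1)
`p ∣ Δ k l * z r`, so `p ∣ Δ k l ∣ D`. Conversely if `Δ k l = 0` then by (2) `p ∣ z l * a k`, and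
`p ∤ a k` (`a k ∣ D`), so `p ∣ z l`. (`l ∈ cls a b k ↔ Δ k l = 0`.)
(4) So `z i ∈ smoothZ (D * r) B` with `r = rd (cls a b i) z` (`dvd_rd`), where `1 ≤ r ≤ M (cls a b i)`,
`r ≤ B^n` (`rd_le_pow`), `D * r ≤ (2B)^(2n^2 + 2n)`. The map `z ↦ (rd (cls i) z, z i, rd (cls j) z, z j)`
is injective on `Z` (`z i, z j` determine `s, t` since `Δ i j ≠ 0`) and takes at most
`M (cls i) * K * M (cls j) * K` values. (Or use `card_by_rd` with `𝒢 = {cls i, cls j}`; the two classes
are different because `i ∈ cls i`, `i ∉ cls j`.)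
-/

namespace Pool.Agent.PSV

open Finset

variable {n B m : ℕ} {K : ℝ} {M : Finset (Fin n) → ℝ}

private theorem plane_rel {a b z : Fin n → ℤ} (h : rat z ∈ Submodule.span ℚ {rat a, rat b})
    (k l r : Fin n) :
    (a k * b l - a l * b k) * z r =
      (a k * b r - a r * b k) * z l - (a l * b r - a r * b l) * z k := by
  rw [Submodule.mem_span_pair] at h
  obtain ⟨s, t, h⟩ := h
  have hh : ∀ q, (z q : ℚ) = s * a q + t * b q := fun q => by
    have h1 := congrFun h q
    simp only [rat, Pi.add_apply, Pi.smul_apply, smul_eq_mul] at h1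
    exact h1.symm
  have h2 : (((a k * b l - a l * b k) * z r : ℤ) : ℚ) =
      (((a k * b r - a r * b k) * z l - (a l * b r - a r * b l) * z k : ℤ) : ℚ) := by
    push_cast
    rw [hh, hh, hh]
    ring
  exact_mod_cast h2

private theorem plane_rel2 {a b z : Fin n → ℤ} (h : rat z ∈ Submodule.span ℚ {rat a, rat b})
    (k l : Fin n) (hkl : a k * b l = a l * b k) : z k * a l = z l * a k := by
  rw [Submodule.mem_span_pair] at h
  obtain ⟨s, t, h⟩ := h
  have hh : ∀ q, (z q : ℚ) = s * a q + t * b q := fun q => by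
    have h1 := congrFun h q
    simp only [rat, Pi.add_apply, Pi.smul_apply, smul_eq_mul] at h1
    exact h1.symm
  have hq : (a k : ℚ) * b l = a l * b k := by exact_mod_cast hkl
  have h2 : ((z k * a l : ℤ) : ℚ) = ((z l * a k : ℤ) : ℚ) := by
    push_cast
    rw [hh, hh]
    linear_combination (-t) * hq
  exact_mod_cast h2

private def DD (a b : Fin n → ℤ) : ℕ :=
  (∏ k : Fin n, ∏ l : Fin n, (if a k * b l - a l * b k = 0 then 1 else
    (a k * b l - a l * b k).natAbs)) * ∏ k, (a k).natAbs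

private theorem DD_pos {a b : Fin n → ℤ} (ha : ∀ i, a i ≠ 0) : 0 < DD a b := by
  unfold DD
  refine Nat.mul_pos (prod_pos fun k _ => prod_pos fun l _ => ?_)
    (prod_pos fun k _ => Int.natAbs_pos.2 (ha k))
  split_ifs with h
  · exact one_pos
  · exact Int.natAbs_pos.2 h

private theorem del_dvd_DD {a b : Fin n → ℤ} {k l : Fin n} (h : a k * b l - a l * b k ≠ 0) :
    (a k * b l - a l * b k).natAbs ∣ DD a b := by
  unfold DD
  have h1 : (if a k * b l - a l * b k = 0 then 1 else (a k * b l - a l * b k).natAbs) ∣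
      ∏ l : Fin n, (if a k * b l - a l * b k = 0 then 1 else (a k * b l - a l * b k).natAbs) :=
    dvd_prod_of_mem
      (fun l : Fin n => if a k * b l - a l * b k = 0 then 1 else (a k * b l - a l * b k).natAbs)
      (mem_univ l)
  rw [if_neg h] at h1
  have h2 := dvd_prod_of_mem (fun k : Fin n => ∏ l : Fin n,
    (if a k * b l - a l * b k = 0 then 1 else (a k * b l - a l * b k).natAbs)) (mem_univ k)
  exact (h1.trans h2).mul_right _

private theorem a_dvd_DD {a b : Fin n → ℤ} (k : Fin n) : (a k).natAbs ∣ DD a b := by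
  unfold DD
  exact (dvd_prod_of_mem (fun k : Fin n => (a k).natAbs) (mem_univ k)).mul_left _

private theorem natAbs_le_of {x : ℤ} {B : ℕ} (h : |x| ≤ B) : x.natAbs ≤ B := by
  rw [Int.abs_eq_natAbs] at h
  exact_mod_cast h

private theorem DD_le {B : ℕ} (hB : 1 ≤ B) {a b : Fin n → ℤ} (haB : ∀ i, |a i| ≤ B)
    (hbB : ∀ i, |b i| ≤ B) : DD a b ≤ (2 * B) ^ (2 * n ^ 2 + n) := by
  unfold DD
  have h1 : ∀ k l : Fin n, (if a k * b l - a l * b k = 0 then 1 else
      (a k * b l - a l * b k).natAbs) ≤ (2 * B) ^ 2 := by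
    intro k l
    split_ifs with h
    · exact Nat.one_le_pow _ _ (by omega)
    · refine (Int.natAbs_sub_le _ _).trans ?_
      rw [Int.natAbs_mul, Int.natAbs_mul]
      have e1 := Nat.mul_le_mul (natAbs_le_of (haB k)) (natAbs_le_of (hbB l))
      have e2 := Nat.mul_le_mul (natAbs_le_of (haB l)) (natAbs_le_of (hbB k))
      nlinarith
  have h2 : ∀ k : Fin n, (∏ l : Fin n, (if a k * b l - a l * b k = 0 then 1 else
      (a k * b l - a l * b k).natAbs)) ≤ ((2 * B) ^ 2) ^ n := by
    intro k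
    have := prod_le_pow_card (univ : Finset (Fin n)) (fun l : Fin n =>
      if a k * b l - a l * b k = 0 then 1 else (a k * b l - a l * b k).natAbs) ((2 * B) ^ 2)
      (fun l _ => h1 k l)
    rwa [card_univ, Fintype.card_fin] at this
  have h3 : (∏ k : Fin n, ∏ l : Fin n, (if a k * b l - a l * b k = 0 then 1 else
      (a k * b l - a l * b k).natAbs)) ≤ (((2 * B) ^ 2) ^ n) ^ n := by
    have := prod_le_pow_card (univ : Finset (Fin n)) (fun k : Fin n => ∏ l : Fin n,
      (if a k * b l - a l * b k = 0 then 1 else (a k * b l - a l * b k).natAbs))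
      (((2 * B) ^ 2) ^ n) (fun k _ => h2 k)
    rwa [card_univ, Fintype.card_fin] at this
  have h4 : (∏ k, (a k).natAbs) ≤ (2 * B) ^ n := by
    have := prod_le_pow_card (univ : Finset (Fin n)) (fun k : Fin n => (a k).natAbs) (2 * B)
      (fun k _ => (natAbs_le_of (haB k)).trans (by omega))
    rwa [card_univ, Fintype.card_fin] at this
  refine (Nat.mul_le_mul h3 h4).trans (le_of_eq ?_)
  rw [pow_add, ← pow_mul, ← pow_mul]
  congr 2
  ring

private theorem pat_eq_cls {B : ℕ} {M : Finset (Fin n) → ℝ} (hM : Bds M) {a b z : Fin n → ℤ}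
    (hz : Adm B M z) (h : rat z ∈ Submodule.span ℚ {rat a, rat b}) {p : ℕ} (hp : p.Prime)
    {k : Fin n} (hk : (p : ℤ) ∣ z k) (hD : ¬ p ∣ DD a b) : pat z p = cls a b k := by
  have hpI : Prime (p : ℤ) := Nat.prime_iff_prime_int.1 hp
  have h0 := not_dvd_all hM hz hp (Fin.pos k)
  obtain ⟨r, hr⟩ : ∃ r, ¬ (p : ℤ) ∣ z r := by
    by_contra hcon
    push Not at hcon
    exact h0 (eq_univ_iff_forall.2 fun r => (mem_pat z p r).2 (hcon r))
  ext l
  rw [mem_pat]
  unfold cls
  rw [mem_filter]
  constructor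
  · intro hl
    refine ⟨mem_univ _, ?_⟩
    by_contra hne
    have hne' : a k * b l - a l * b k ≠ 0 := fun hc => hne (sub_eq_zero.1 hc)
    have h1 := plane_rel h k l r
    have h2 : (p : ℤ) ∣ (a k * b l - a l * b k) * z r := by
      rw [h1]
      exact dvd_sub (hl.mul_left _) (hk.mul_left _)
    rcases hpI.dvd_or_dvd h2 with h3 | h3
    · exact hD ((Int.natCast_dvd.1 h3).trans (del_dvd_DD hne'))
    · exact hr h3
  · rintro ⟨_, hl⟩
    have h1 := plane_rel2 h k l hl
    have h2 : (p : ℤ) ∣ z l * a k := by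
      rw [← h1]
      exact hk.mul_right _
    rcases hpI.dvd_or_dvd h2 with h3 | h3
    · exact h3
    · exact absurd ((Int.natCast_dvd.1 h3).trans (a_dvd_DD k)) hD

private theorem coord_mem {B : ℕ} {M : Finset (Fin n) → ℝ} (hM : Bds M) {a b z : Fin n → ℤ}
    (hz : Adm B M z) (h : rat z ∈ Submodule.span ℚ {rat a, rat b}) (k : Fin n) :
    z k ∈ H4Cnt.smoothZ (DD a b * rd (cls a b k) z) B := by
  apply H4Cnt.mem_smoothZ _ _ _ (hz.ne_zero k) (hz.le k)
  intro p hp hk
  by_cases hD : p ∣ DD a b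
  · exact hD.mul_right _
  · have h1 := pat_eq_cls hM hz h hp hk hD
    have h2 := dvd_rd hz.ne_zero hp hk
    rw [h1] at h2
    exact h2.mul_left _

theorem card_plane (hB : 1 ≤ B) (hK : Big n B m K) (hm : 2 * n ^ 2 + 2 * n ≤ m) (hM : Bds M)
    (a b : Fin n → ℤ) (ha : ∀ i, a i ≠ 0) (haB : ∀ i, |a i| ≤ B) (hbB : ∀ i, |b i| ≤ B)
    (i j : Fin n) (hij : a i * b j ≠ a j * b i) (Z : Finset (Fin n → ℤ))
    (hZ : ∀ z ∈ Z, Adm B M z) (hs : ∀ z ∈ Z, rat z ∈ Submodule.span ℚ {rat a, rat b}) :
    (Z.card : ℝ) ≤ K ^ 2 * (M (cls a b i) * M (cls a b j)) := by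
  classical
  have hnot : cls a b i ≠ cls a b j := by
    intro hc
    have h1 : j ∈ cls a b j := by
      unfold cls
      exact mem_filter.2 ⟨mem_univ _, rfl⟩
    rw [← hc] at h1
    unfold cls at h1
    exact hij (mem_filter.1 h1).2
  have hsm : ∀ z₀ ∈ Z, ∀ k : Fin n,
      ((H4Cnt.smoothZ (DD a b * rd (cls a b k) z₀) B).card : ℝ) ≤ K := by
    intro z₀ hz₀ k
    have hpos : 0 < DD a b * rd (cls a b k) z₀ := Nat.mul_pos (DD_pos ha) (rd_pos _ _)
    apply hK.smooth _ hpos
    have h1 := DD_le hB haB hbB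
    have h2 := rd_le_pow (cls a b k) (hZ z₀ hz₀).ne_zero (hZ z₀ hz₀).le
    have h3 : B ^ n ≤ (2 * B) ^ n := Nat.pow_le_pow_left (by omega) n
    refine (Nat.mul_le_mul h1 (h2.trans h3)).trans ?_
    rw [← pow_add]
    exact Nat.pow_le_pow_right (by omega) (by omega)
  have hK0 : 0 ≤ K := by
    have := hK.four_le
    linarith
  have hmain := card_by_rd (B := B) (γ := Fin n → ℤ) hM.one_le {cls a b i, cls a b j} Z hZ
    (fun z => z) (K ^ 2) (by positivity) (by
      intro z₀ hz₀
      rw [image_id']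
      have hmaps : ∀ z ∈ Z.filter (fun z => ∀ F ∈ ({cls a b i, cls a b j} :
          Finset (Finset (Fin n))), rd F z = rd F z₀),
          (fun z : Fin n → ℤ => (z i, z j)) z ∈
            H4Cnt.smoothZ (DD a b * rd (cls a b i) z₀) B ×ˢ
              H4Cnt.smoothZ (DD a b * rd (cls a b j) z₀) B := by
        intro z hz
        rw [mem_filter] at hz
        have e1 := hz.2 (cls a b i) (by simp)
        have e2 := hz.2 (cls a b j) (by simp)
        rw [← e1, ← e2]
        exact mem_product.2 ⟨coord_mem hM (hZ z hz.1) (hs z hz.1) i,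
          coord_mem hM (hZ z hz.1) (hs z hz.1) j⟩
      have hinj : Set.InjOn (fun z : Fin n → ℤ => (z i, z j)) (Z.filter (fun z => ∀ F ∈
          ({cls a b i, cls a b j} : Finset (Finset (Fin n))), rd F z = rd F z₀) :
            Finset (Fin n → ℤ)) := by
        intro z hz w hw hzw
        have hz1 := (mem_filter.1 (mem_coe.1 hz)).1
        have hw1 := (mem_filter.1 (mem_coe.1 hw)).1
        have h1 : z i = w i := congrArg Prod.fst hzw
        have h2 : z j = w j := congrArg Prod.snd hzw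
        funext r
        have h3 := plane_rel (hs z hz1) i j r
        have h4 := plane_rel (hs w hw1) i j r
        rw [h1, h2, ← h4] at h3
        exact mul_left_cancel₀ (sub_ne_zero.2 hij) h3
      have hc := card_le_card_of_injOn _ hmaps hinj
      rw [card_product] at hc
      have hc' : (((Z.filter (fun z => ∀ F ∈ ({cls a b i, cls a b j} :
          Finset (Finset (Fin n))), rd F z = rd F z₀)).card : ℕ) : ℝ) ≤
          (H4Cnt.smoothZ (DD a b * rd (cls a b i) z₀) B).card *
            (H4Cnt.smoothZ (DD a b * rd (cls a b j) z₀) B).card := by exact_mod_cast hc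
      refine hc'.trans ?_
      rw [pow_two]
      exact mul_le_mul (hsm z₀ hz₀ i) (hsm z₀ hz₀ j) (Nat.cast_nonneg _) hK0)
  rw [image_id', prod_pair hnot] at hmain
  exact hmain

end Pool.Agent.PSV
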