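import Pool.Agent.PSV.Rank1
import Pool.Agent.PSV.Plane

/-!
# Admissible vectors in a space of dimension at most 2

PROOF. If any two elements of `Z` are proportional: `card_le_two`. Otherwise `a, b ∈ Z` with
`a i * b j ≠ a j * b i` for some `i, j`. Then `rat a, rat b` are linearly independent, so they span `W`
(`finrank W ≤ 2`, `Submodule.eq_of_le_of_finrank_le`), and `card_plane` applies for every such `i, j`.
-/

namespace Pool.Agent.PSV

open Finset Module

variable {n B m : ℕ} {K : ℝ} {M : Finset (Fin n) → ℝ}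

theorem span_pair {a b : Fin n → ℤ} {i j : Fin n} (hij : a i * b j ≠ a j * b i)
    (W : Submodule ℚ (Fin n → ℚ)) (hW : finrank ℚ W ≤ 2) (ha : rat a ∈ W) (hb : rat b ∈ W) :
    W = Submodule.span ℚ {rat a, rat b} := by
  have hli : LinearIndependent ℚ ![rat a, rat b] := by
    rw [LinearIndependent.pair_iff]
    intro s t hst
    have e1 := congrFun hst i
    have e2 := congrFun hst j
    simp only [Pi.add_apply, Pi.smul_apply, smul_eq_mul, Pi.zero_apply, rat] at e1 e2
    have hdet : ((a i : ℚ) * b j - a j * b i) ≠ 0 := by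
      rw [sub_ne_zero]
      exact_mod_cast hij
    constructor
    · have : s * ((a i : ℚ) * b j - a j * b i) = 0 := by
        linear_combination (b j : ℚ) * e1 - (b i : ℚ) * e2
      exact (mul_eq_zero.1 this).resolve_right hdet
    · have : t * ((a i : ℚ) * b j - a j * b i) = 0 := by
        linear_combination (a i : ℚ) * e2 - (a j : ℚ) * e1
      exact (mul_eq_zero.1 this).resolve_right hdet
  have hr : Set.range ![rat a, rat b] = {rat a, rat b} := by
    simp [Set.pair_comm]
  have hfin : finrank ℚ (Submodule.span ℚ ({rat a, rat b} : Set (Fin n → ℚ))) = 2 := by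
    have h1 := finrank_span_eq_card hli
    rw [hr] at h1
    simpa using h1
  have hle : Submodule.span ℚ ({rat a, rat b} : Set (Fin n → ℚ)) ≤ W := by
    rw [Submodule.span_le]
    rintro x (rfl | hx)
    · exact ha
    · rw [Set.mem_singleton_iff] at hx
      rw [hx]
      exact hb
  exact (Submodule.eq_of_le_of_finrank_le hle (by rw [hfin]; exact hW)).symm

theorem card_dual (hB : 1 ≤ B) (hK : Big n B m K) (hm : 2 * n ^ 2 + 2 * n ≤ m) (hM : Bds M)
    (W : Submodule ℚ (Fin n → ℚ)) (hW : finrank ℚ W ≤ 2) (Z : Finset (Fin n → ℤ))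
    (hZ : ∀ z ∈ Z, Adm B M z ∧ rat z ∈ W) :
    Z.card ≤ 2 ∨ ∃ a ∈ Z, ∃ b ∈ Z, (∃ i j, a i * b j ≠ a j * b i) ∧
      ∀ i j, a i * b j ≠ a j * b i → (Z.card : ℝ) ≤ K ^ 2 * (M (cls a b i) * M (cls a b j)) := by
  by_cases hp : ∀ z ∈ Z, ∀ z' ∈ Z, ∀ i j, z i * z' j = z j * z' i
  · left
    exact card_le_two hM Z (fun z hz => (hZ z hz).1) hp
  · right
    push Not at hp
    obtain ⟨a, ha, b, hb, i, j, hij⟩ := hp
    refine ⟨a, ha, b, hb, ⟨i, j, hij⟩, fun i' j' hij' => ?_⟩
    have hspan := span_pair hij' W hW (hZ a ha).2 (hZ b hb).2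
    refine card_plane hB hK hm hM a b (hZ a ha).1.ne_zero (hZ a ha).1.le (hZ b hb).1.le i' j' hij' Z
      (fun z hz => (hZ z hz).1) (fun z hz => ?_)
    rw [← hspan]
    exact (hZ z hz).2

end Pool.Agent.PSV
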