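import Pool.Agent.PSV.PartAdm
import Pool.Agent.PSV.BigL

/-!
# Dyadic bounds for the radicals of the parts

`dex z F = Nat.clog 2 (rd F z)`, `dM e F = 2 ^ e F`.
PROOFS. `prod_rd`: the primes of `prs z` are partitioned by their types (`Finset.prod_fiberwise`).
`adm_dyadic`: `rd F z ≤ 2 ^ clog 2 (rd F z)` (`Nat.le_pow_clog`). `bds_dyadic`: powers of 2 are `≥ 1`;
`rd univ z = 1` since no prime has type `univ`, and `clog 2 1 = 0`. `prod_dM`:
`2 ^ clog 2 r ≤ 2 r` for `r ≥ 1` (`Nat.pow_pred_clog_lt_self` for `r > 1`; `r = 1` clear), there are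
`2 ^ n` sets `F` (`Fintype.card_finset`), `prod_rd`. `dex_le`: monotonicity of `clog`, `rd_le_pow`.
`card_dex`: the image lies in the set of functions with values in `range (E + 1)`, `E = clog 2 (B^n)`
(`Fintype.piFinset`): at most `(E+1)^(2^n)` of them, and `E + 1 ≤ log(B^n)/log 2 + 2 ≤ 2 n log(2B+1) + 2
≤ 2 K ≤ K^2`. (`Nat.clog` and `Real.logb`: `2^(E-1) < B^n` if `B^n > 1`, so `(E-1) log 2 ≤ n log B`,
`log 2 ≥ 1/2`.)
-/

namespace Pool.Agent.PSV

open Finset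

variable {n B m : ℕ} {K : ℝ}

theorem prod_rd {z : Fin n → ℤ} (hz : ∀ i, z i ≠ 0) : ∏ F, rd F z = ∏ p ∈ prs z, p := by
  unfold rd
  exact prod_fiberwise (prs z) (fun p => pat z p) (fun p => p)

def dex (z : Fin n → ℤ) (F : Finset (Fin n)) : ℕ := Nat.clog 2 (rd F z)

noncomputable def dM (e : Finset (Fin n) → ℕ) (F : Finset (Fin n)) : ℝ := 2 ^ e F

theorem adm_dyadic {z : Fin n → ℤ} (hz : ∀ i, z i ≠ 0) (hB : ∀ i, |z i| ≤ B) :
    Adm B (dM (dex z)) z := by
  refine ⟨hz, hB, fun F => ?_⟩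
  unfold dM dex
  have h := Nat.le_pow_clog (b := 2) (by norm_num) (rd F z)
  exact_mod_cast h

theorem bds_dyadic {z : Fin n → ℤ} (hprim : ∀ p : ℕ, p.Prime → ∃ i, ¬ (p : ℤ) ∣ z i) :
    Bds (dM (dex z)) := by
  refine ⟨fun F => ?_, ?_⟩
  · unfold dM
    exact one_le_pow₀ (by norm_num)
  · have h1 : rd univ z = 1 := by
      unfold rd
      rw [filter_eq_empty_iff.2, prod_empty]
      intro p hp hpat
      obtain ⟨i, hi⟩ := hprim p (Nat.prime_of_mem_primeFactors hp)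
      apply hi
      have h2 : i ∈ pat z p := hpat ▸ mem_univ i
      simpa [pat] using h2
    simp [dM, dex, h1]

private theorem pow_clog_le {r : ℕ} (hr : 0 < r) : (2 : ℝ) ^ Nat.clog 2 r ≤ 2 * r := by
  rcases Nat.lt_or_ge 1 r with h | h
  · have h1 := Nat.pow_pred_clog_lt_self (b := 2) (by norm_num) h
    have h2 : 0 < Nat.clog 2 r := Nat.clog_pos (by norm_num) h
    have h3 : Nat.clog 2 r = (Nat.clog 2 r).pred + 1 := (Nat.succ_pred_eq_of_pos h2).symm
    have h4 : (2 : ℝ) ^ (Nat.clog 2 r).pred < r := by exact_mod_cast h1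
    rw [h3, pow_succ]
    linarith
  · have : r = 1 := by omega
    subst this
    simp

theorem prod_dM {z : Fin n → ℤ} (hz : ∀ i, z i ≠ 0) :
    ∏ F, dM (dex z) F ≤ 2 ^ (2 ^ n) * ∏ p ∈ prs z, (p : ℝ) := by
  have h1 : ∏ F, dM (dex z) F ≤ ∏ F : Finset (Fin n), (2 * (rd F z : ℝ)) := by
    refine prod_le_prod (fun F _ => ?_) fun F _ => ?_
    · unfold dM
      positivity
    · exact pow_clog_le (rd_pos F z)
  refine h1.trans_eq ?_
  rw [prod_mul_distrib, prod_const, card_univ, Fintype.card_finset, Fintype.card_fin]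
  congr 1
  rw [← Nat.cast_prod, prod_rd hz, Nat.cast_prod]

private theorem dex_le {z : Fin n → ℤ} (hz : ∀ i, z i ≠ 0) (hB : ∀ i, |z i| ≤ B)
    (F : Finset (Fin n)) : dex z F ≤ Nat.clog 2 (B ^ n) :=
  Nat.clog_mono_right 2 (rd_le_pow F hz hB)

private theorem clog_le (hB : 1 ≤ B) (hK : Big n B m K) :
    ((Nat.clog 2 (B ^ n) : ℕ) : ℝ) + 1 ≤ K ^ 2 := by
  have hK4 := hK.four_le
  have hlogle := hK.log_le
  have hB1 : (1 : ℝ) ≤ B := by exact_mod_cast hB
  have hn0 : (0 : ℝ) ≤ n := Nat.cast_nonneg n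
  have hlog0 : 0 ≤ Real.log B := Real.log_nonneg hB1
  have hlog1 : Real.log B ≤ Real.log (2 * B + 1) :=
    Real.log_le_log (by linarith) (by linarith)
  have hmul : n * Real.log B ≤ n * Real.log (2 * B + 1) := mul_le_mul_of_nonneg_left hlog1 hn0
  have hKK : 2 * K ≤ K ^ 2 := by nlinarith
  rcases Nat.lt_or_ge 1 (B ^ n) with h | h
  · have h1 := Nat.pow_pred_clog_lt_self (b := 2) (by norm_num) h
    have h2 : 0 < Nat.clog 2 (B ^ n) := Nat.clog_pos (by norm_num) h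
    have h3 : Nat.clog 2 (B ^ n) = (Nat.clog 2 (B ^ n)).pred + 1 :=
      (Nat.succ_pred_eq_of_pos h2).symm
    have h4 : (2 : ℝ) ^ (Nat.clog 2 (B ^ n)).pred ≤ (B : ℝ) ^ n := by exact_mod_cast h1.le
    have h5 := Real.log_le_log (by positivity) h4
    rw [Real.log_pow, Real.log_pow] at h5
    have h6 : (1 : ℝ) / 2 ≤ Real.log 2 := by
      have := Real.log_two_gt_d9
      linarith
    have h7 : (((Nat.clog 2 (B ^ n)).pred : ℕ) : ℝ) * (1 / 2) ≤
        (((Nat.clog 2 (B ^ n)).pred : ℕ) : ℝ) * Real.log 2 :=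
      mul_le_mul_of_nonneg_left h6 (Nat.cast_nonneg _)
    have h8 : ((Nat.clog 2 (B ^ n) : ℕ) : ℝ) = (((Nat.clog 2 (B ^ n)).pred : ℕ) : ℝ) + 1 := by
      exact_mod_cast h3
    rw [h8]
    nlinarith
  · have h1 : Nat.clog 2 (B ^ n) = 0 := Nat.clog_of_right_le_one h 2
    rw [h1]
    push_cast
    nlinarith

theorem card_dex (hB : 1 ≤ B) (hK : Big n B m K) (Z : Finset (Fin n → ℤ))
    (hZ : ∀ z ∈ Z, (∀ i, z i ≠ 0) ∧ ∀ i, |z i| ≤ B) :
    ((Z.image dex).card : ℝ) ≤ (K ^ 2) ^ (2 ^ n) := by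
  classical
  have h1 : Z.image dex ⊆
      Fintype.piFinset (fun _ : Finset (Fin n) => range (Nat.clog 2 (B ^ n) + 1)) := by
    intro e he
    obtain ⟨z, hz, rfl⟩ := mem_image.1 he
    rw [Fintype.mem_piFinset]
    intro F
    rw [mem_range]
    have := dex_le (hZ z hz).1 (hZ z hz).2 F
    omega
  have h2 := card_le_card h1
  rw [Fintype.card_piFinset, prod_const, card_range, card_univ, Fintype.card_finset,
    Fintype.card_fin] at h2
  have h3 : ((Z.image dex).card : ℝ) ≤ ((Nat.clog 2 (B ^ n) : ℕ) + 1 : ℝ) ^ (2 ^ n) := by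
    exact_mod_cast h2
  refine h3.trans ?_
  exact pow_le_pow_left₀ (by positivity) (clog_le hB hK) _

end Pool.Agent.PSV
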