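import Pool.Agent.PSV.FibreCore
import Pool.Agent.PSV.Count

/-!
# One type, or two nested types, are determined by the others

PROOF of `fibre`. `F = ∅`: `rd ∅ z = 1` (`rd_empty`), so `Z` is admissible for `Mr {∅}ᶜ M` and `card_adm`
gives `K^n ∏ F' ≠ ∅, M F'` (`prod_Mr`), and `K^n ≤ K^(2n)`. `F ≠ ∅`: the map `z ↦ co {F} z` has an image of
at most `K^n ∏ F' ≠ F, M F'` elements (`Adm.co`, `card_adm`, `prod_Mr`, `{F}ᶜ = univ.erase F`) and fibres
of at most `K^n` elements: `z = part {F} z * c` (`part_mul_co`) is determined by `part {F} z`,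
`fibre_core` with `𝒜 = {F}`. (`Finset.card_le_mul_card_image`-type counting, with real numbers:
`card = ∑ over the image of the fibre cards`, `Finset.card_eq_sum_card_image`.)
PROOF of `fibre2`. `𝒜 = {F, G}`. The map `z ↦ co 𝒜 z` has an image of at most `K^n ∏ others`. For fixed
`c = co 𝒜 z` the part `part {G} z` takes at most `K^n` values (`fibre_core` with largest type `G`). For
fixed `c` and `x = part {G} z`: `co {F} z = c * x` since `part {F} z * co {F} z = z =
part {F} z * part {G} z * co 𝒜 z` (`part_union`, `part_mul_co`, cancel the non-zero `part {F} z i`), so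
`part {F} z` takes at most `K^n` values (`fibre_core` with `𝒜 = {F}`), and it determines
`z = part {F} z * (c * x)`.
-/

namespace Pool.Agent.PSV

open Finset

variable {n B k m : ℕ} {K : ℝ} {M : Finset (Fin n) → ℝ}

private theorem fib_card_le {α β : Type*} [DecidableEq β] (Z : Finset α) (f : α → β) (X : ℝ)
    (h : ∀ c, ((Z.filter fun z => f z = c).card : ℝ) ≤ X) :
    (Z.card : ℝ) ≤ (Z.image f).card * X := by
  have h1 := Finset.card_eq_sum_card_image f Z
  calc (Z.card : ℝ) = ∑ c ∈ Z.image f, ((Z.filter fun z => f z = c).card : ℝ) := by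
        exact_mod_cast h1
    _ ≤ ∑ _c ∈ Z.image f, X := Finset.sum_le_sum fun c _ => h c
    _ = _ := by rw [Finset.sum_const, nsmul_eq_mul]

private theorem fib_mr_one (hM : ∀ F, 1 ≤ M F) (𝒜 : Finset (Finset (Fin n))) :
    ∀ F, 1 ≤ Mr 𝒜 M F := by
  intro F
  unfold Mr
  split_ifs
  · exact hM F
  · exact le_rfl

private theorem fib_image_co (hB : 1 ≤ B) (hK : Big n B m K) (hm : n ≤ m) (hM : ∀ F, 1 ≤ M F)
    (𝒜 : Finset (Finset (Fin n))) (Z : Finset (Fin n → ℤ)) (hZ : ∀ z ∈ Z, Adm B M z) :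
    ((Z.image (co 𝒜)).card : ℝ) ≤ K ^ n * ∏ G ∈ 𝒜ᶜ, M G := by
  have h := card_adm hB hK hm (fib_mr_one hM 𝒜ᶜ) (Z.image (co 𝒜)) (by
    intro w hw
    obtain ⟨z, hz, rfl⟩ := mem_image.1 hw
    exact (hZ z hz).co 𝒜 hM)
  rwa [prod_Mr] at h

private theorem fib_inj (𝒜 : Finset (Finset (Fin n))) (Z : Finset (Fin n → ℤ)) (c : Fin n → ℤ) :
    (Z.filter fun z => co 𝒜 z = c).card =
      ((Z.filter fun z => co 𝒜 z = c).image (part 𝒜)).card := by
  symm
  apply Finset.card_image_of_injOn
  intro z hz w hw h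
  have hz' := (mem_filter.1 (Finset.mem_coe.1 hz)).2
  have hw' := (mem_filter.1 (Finset.mem_coe.1 hw)).2
  rw [← part_mul_co 𝒜 z, ← part_mul_co 𝒜 w]
  have h2 : part 𝒜 z = part 𝒜 w := h
  rw [h2, hz', hw']

theorem fibre (hB : 1 ≤ B) (hK : Big n B m K) (hm : n + k + 1 ≤ m) {L : Set (Fin n → ℤ)}
    (hL : Ent B k L) (hM : ∀ F, 1 ≤ M F) (F : Finset (Fin n)) (hF' : F ≠ univ)
    (Z : Finset (Fin n → ℤ)) (hZ : ∀ z ∈ Z, Adm B M z ∧ Sol L z) :
    (Z.card : ℝ) ≤ K ^ (2 * n) * ∏ G ∈ univ.erase F, M G := by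
  have hK4 := hK.four_le
  have hK0 : (0 : ℝ) ≤ K := by linarith
  have hK1 : (1 : ℝ) ≤ K := by linarith
  have hP : (1 : ℝ) ≤ ∏ G ∈ univ.erase F, M G :=
    Finset.prod_induction _ (fun x : ℝ => 1 ≤ x) (fun _ _ => one_le_mul_of_one_le_of_one_le) le_rfl fun G _ => hM G
  have hnm : n ≤ m := by omega
  rcases F.eq_empty_or_nonempty with h0 | h0
  · have h := card_adm hB hK hnm (fib_mr_one hM ({F}ᶜ : Finset (Finset (Fin n)))) Z (by
      intro z hz
      obtain ⟨ha, _⟩ := hZ z hz
      refine ⟨ha.ne_zero, ha.le, fun G => ?_⟩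
      unfold Mr
      split_ifs with hG
      · exact ha.rd_le G
      · rw [mem_compl, not_not, mem_singleton] at hG
        rw [hG, h0, rd_empty ha.ne_zero]
        exact le_of_eq Nat.cast_one)
    rw [prod_Mr, compl_singleton] at h
    refine h.trans ?_
    refine mul_le_mul_of_nonneg_right ?_ (by linarith)
    exact pow_le_pow_right₀ hK1 (by omega)
  · have h1 := fib_image_co hB hK hnm hM {F} Z fun z hz => (hZ z hz).1
    rw [compl_singleton] at h1
    have h2 := fib_card_le Z (co {F}) (K ^ n) (by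
      intro c
      rw [fib_inj]
      exact fibre_core hB hK hm hL {F} F h0 hF' (by
        intro G hG
        rw [mem_singleton] at hG
        rw [hG]) Z hZ c)
    calc (Z.card : ℝ) ≤ (Z.image (co {F})).card * K ^ n := h2
      _ ≤ (K ^ n * ∏ G ∈ univ.erase F, M G) * K ^ n :=
          mul_le_mul_of_nonneg_right h1 (by positivity)
      _ = K ^ (2 * n) * ∏ G ∈ univ.erase F, M G := by ring

theorem fibre2 (hB : 1 ≤ B) (hK : Big n B m K) (hm : n + k + 1 ≤ m) {L : Set (Fin n → ℤ)}
    (hL : Ent B k L) (hM : ∀ F, 1 ≤ M F) (F G : Finset (Fin n)) (hF : F.Nonempty) (hFG : F ⊂ G)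
    (hG : G ≠ univ) (Z : Finset (Fin n → ℤ)) (hZ : ∀ z ∈ Z, Adm B M z ∧ Sol L z) :
    (Z.card : ℝ) ≤ K ^ (3 * n) * ∏ H ∈ (univ.erase F).erase G, M H := by
  have hK4 := hK.four_le
  have hK0 : (0 : ℝ) ≤ K := by linarith
  have hnm : n ≤ m := by omega
  have hF' : F ≠ univ := by
    intro h
    rw [h] at hFG
    exact absurd (subset_univ G) hFG.2
  have hGn : G.Nonempty := hF.mono hFG.1
  have hne : F ≠ G := hFG.ne
  have h1 := fib_image_co hB hK hnm hM {F, G} Z fun z hz => (hZ z hz).1
  have hco : ({F, G}ᶜ : Finset (Finset (Fin n))) = (univ.erase F).erase G := by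
    ext H
    simp only [mem_compl, mem_insert, mem_singleton, mem_erase, mem_univ, and_true, not_or]
    tauto
  rw [hco] at h1
  have hdis : Disjoint ({F} : Finset (Finset (Fin n))) {G} := by
    rw [disjoint_singleton]
    exact hne
  have hun : ({F, G} : Finset (Finset (Fin n))) = {F} ∪ {G} := rfl
  have h2 := fib_card_le Z (co {F, G}) (K ^ n * K ^ n) (by
    intro c
    have h3 := fibre_core hB hK hm hL {F, G} G hGn hG (by
      intro H hH
      rw [mem_insert, mem_singleton] at hH
      rcases hH with rfl | rfl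
      · exact hFG.1
      · exact subset_rfl) Z hZ c
    have h4 := fib_card_le (Z.filter fun z => co {F, G} z = c) (part {G}) (K ^ n) (by
      intro x
      have hsub : ((Z.filter fun z => co {F, G} z = c).filter fun z => part {G} z = x) ⊆
          Z.filter fun z => co {F} z = x * c := by
        intro z hz
        rw [mem_filter, mem_filter] at hz
        obtain ⟨⟨hzZ, hzc⟩, hzx⟩ := hz
        rw [mem_filter]
        refine ⟨hzZ, ?_⟩
        have e1 := part_mul_co {F, G} z
        have e2 := part_mul_co {F} z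
        rw [hun, part_union _ _ hdis, ← hun, hzc, hzx] at e1
        funext i
        have e3 := congrFun (e2.trans e1.symm) i
        simp only [Pi.mul_apply] at e3 ⊢
        have e4 : part {F} z i ≠ 0 := (part_pos {F} z i).ne'
        apply mul_left_cancel₀ e4
        rw [e3]
        ring
      have h5 := fibre_core hB hK hm hL {F} F hF hF' (by
        intro H hH
        rw [mem_singleton] at hH
        rw [hH]) Z hZ (x * c)
      rw [← fib_inj] at h5
      refine le_trans ?_ h5
      exact_mod_cast card_le_card hsub)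
    refine h4.trans ?_
    exact mul_le_mul_of_nonneg_right h3 (by positivity))
  calc (Z.card : ℝ) ≤ (Z.image (co {F, G})).card * (K ^ n * K ^ n) := h2
    _ ≤ (K ^ n * ∏ H ∈ (univ.erase F).erase G, M H) * (K ^ n * K ^ n) :=
        mul_le_mul_of_nonneg_right h1 (by positivity)
    _ = K ^ (3 * n) * ∏ H ∈ (univ.erase F).erase G, M H := by ring

end Pool.Agent.PSV
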