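import Pool.Agent.PSV.PartAdm
import Pool.Agent.PSV.BigL

/-!
# The part of the largest type is determined by the rest

STATEMENT. `Z` admissible nondegenerate solutions of `L`, `𝒜` a family of types with largest member
`F`. Among the `z ∈ Z` with `co 𝒜 z = c` there are at most `K ^ n` different parts `part {F} z`.

PROOF. Empty filter: `0 ≤ K ^ n` (`K ≥ 4`). Otherwise fix `z₀` in it. For every `z` of the filter and
`i ∉ F`: no type of `𝒜` contains `i`, so `part 𝒜 z i = 1` (`part_eq_one`) and `z i = co 𝒜 z i = c i`.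
`I = Fᶜ` is nonempty and `≠ univ` (`F` is nonempty): nondegeneracy of `z₀` gives `l ∈ L` with
`D := ∑ i ∈ Fᶜ, l i * c i ≠ 0`; `|D| ≤ n (2B)^k B ≤ (2B)^(n+k+1)` (`n ≤ 2^n ≤ (2B)^n`). For every `z` of
the filter `0 = ∑ i, l i * z i = ∑ i ∈ F, l i * z i + D`. A prime `p` dividing a coordinate of
`part {F} z` has `pat z p = F` (`dvd_part_iff`), divides all `z i`, `i ∈ F`, so it divides `D`.
So every coordinate of `part {F} z` lies in `smoothZ |D| B` (`H4Cnt.mem_smoothZ`; `|part| ≤ |z i| ≤ B`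
by `part_dvd`), which has at most `K` elements: at most `K ^ n` vectors (`Fintype.piFinset`).
-/

namespace Pool.Agent.PSV

open Finset

variable {n B k m : ℕ} {K : ℝ} {M : Finset (Fin n) → ℝ}

theorem fibre_core (hB : 1 ≤ B) (hK : Big n B m K) (hm : n + k + 1 ≤ m) {L : Set (Fin n → ℤ)}
    (hL : Ent B k L) (𝒜 : Finset (Finset (Fin n))) (F : Finset (Fin n)) (hF : F.Nonempty)
    (hF' : F ≠ univ) (hsub : ∀ G ∈ 𝒜, G ⊆ F) (Z : Finset (Fin n → ℤ))
    (hZ : ∀ z ∈ Z, Adm B M z ∧ Sol L z) (c : Fin n → ℤ) :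
    (((Z.filter fun z => co 𝒜 z = c).image (part {F})).card : ℝ) ≤ K ^ n := by
  have hK4 := hK.four_le
  rcases (Z.filter fun z => co 𝒜 z = c).eq_empty_or_nonempty with he | ⟨z₀, hz₀⟩
  · rw [he, image_empty, card_empty]
    have : (0 : ℝ) ≤ K ^ n := by positivity
    simpa using this
  -- outside `F` all `z` of the filter agree with `c`
  have hout : ∀ z ∈ Z.filter fun z => co 𝒜 z = c, ∀ i, i ∉ F → z i = c i := by
    intro z hz i hi
    have h1 : co 𝒜 z = c := (mem_filter.1 hz).2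
    have h2 : part 𝒜 z i = 1 := part_eq_one 𝒜 z i fun G hG hiG => hi (hsub G hG hiG)
    have h3 := congrFun (part_mul_co 𝒜 z) i
    rw [Pi.mul_apply, h2, one_mul, h1] at h3
    exact h3.symm
  have hIne : (Fᶜ : Finset (Fin n)).Nonempty := by
    rw [nonempty_iff_ne_empty, Ne, compl_eq_empty_iff]
    exact hF'
  have hIu : (Fᶜ : Finset (Fin n)) ≠ univ := by
    rw [Ne, compl_eq_univ_iff]
    exact hF.ne_empty
  have hz₀Z := (mem_filter.1 hz₀).1
  obtain ⟨l, hl, hD0⟩ := (hZ z₀ hz₀Z).2.nondeg _ hIne hIu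
  have hDc : ∑ i ∈ Fᶜ, l i * z₀ i = ∑ i ∈ Fᶜ, l i * c i :=
    sum_congr rfl fun i hi => by rw [hout z₀ hz₀ i (mem_compl.1 hi)]
  rw [hDc] at hD0
  set D := ∑ i ∈ Fᶜ, l i * c i with hD
  have hcB : ∀ i ∈ Fᶜ, |c i| ≤ (B : ℤ) := by
    intro i hi
    rw [← hout z₀ hz₀ i (mem_compl.1 hi)]
    exact (hZ z₀ hz₀Z).1.le i
  have hDle : D.natAbs ≤ (2 * B) ^ m := by
    have h1 : |D| ≤ (n : ℤ) * (((2 * B) ^ k : ℕ) * (B : ℤ)) := by
      calc |D| ≤ ∑ i ∈ Fᶜ, |l i * c i| := abs_sum_le_sum_abs _ _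
        _ ≤ ∑ _i ∈ (Fᶜ : Finset (Fin n)), (((2 * B) ^ k : ℕ) * (B : ℤ)) := by
            apply sum_le_sum
            intro i hi
            rw [abs_mul]
            exact mul_le_mul (hL l hl i) (hcB i hi) (abs_nonneg _) (by positivity)
        _ = (#(Fᶜ : Finset (Fin n)) : ℤ) * (((2 * B) ^ k : ℕ) * (B : ℤ)) := by
            rw [sum_const, nsmul_eq_mul]
        _ ≤ (n : ℤ) * (((2 * B) ^ k : ℕ) * (B : ℤ)) := by
            apply mul_le_mul_of_nonneg_right _ (by positivity)
            have := card_le_univ (Fᶜ : Finset (Fin n))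
            rw [Fintype.card_fin] at this
            exact_mod_cast this
    have h2 : D.natAbs ≤ n * ((2 * B) ^ k * B) := by
      zify
      push_cast at h1 ⊢
      exact h1
    have h3 : n ≤ (2 * B) ^ n := (Nat.lt_two_pow_self).le.trans (Nat.pow_le_pow_left (by omega) n)
    calc D.natAbs ≤ n * ((2 * B) ^ k * B) := h2
      _ ≤ (2 * B) ^ n * ((2 * B) ^ k * (2 * B)) :=
          Nat.mul_le_mul h3 (Nat.mul_le_mul_left _ (by omega))
      _ = (2 * B) ^ (n + k + 1) := by ring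
      _ ≤ (2 * B) ^ m := Nat.pow_le_pow_right (by omega) hm
  have hDpos : 0 < D.natAbs := Int.natAbs_pos.2 hD0
  have hsm := hK.smooth D.natAbs hDpos hDle
  have hsubset : (Z.filter fun z => co 𝒜 z = c).image (part {F}) ⊆
      Fintype.piFinset (fun _ : Fin n => H4Cnt.smoothZ D.natAbs B) := by
    intro w hw
    obtain ⟨z, hz, rfl⟩ := mem_image.1 hw
    rw [Fintype.mem_piFinset]
    intro i
    have hzZ := (mem_filter.1 hz).1
    obtain ⟨hadm, hsol⟩ := hZ z hzZ
    have hpos := part_pos {F} z i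
    apply H4Cnt.mem_smoothZ _ _ _ hpos.ne'
    · refine le_trans ?_ (hadm.le i)
      exact Int.le_of_dvd (abs_pos.2 (hadm.ne_zero i)) ((abs_dvd_abs _ _).2 (part_dvd {F} z i))
    · intro p hp hpd
      obtain ⟨_, hpat⟩ := (dvd_part_iff {F} (hadm.ne_zero i) hp).1 hpd
      rw [mem_singleton] at hpat
      have h1 : (p : ℤ) ∣ ∑ i ∈ F, l i * z i := by
        apply dvd_sum
        intro j hj
        rw [← hpat, mem_pat] at hj
        exact dvd_mul_of_dvd_right hj _
      have h2 : ∑ i ∈ F, l i * z i + D = 0 := by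
        have h3 := hsol.zer l hl
        rw [← sum_add_sum_compl F] at h3
        rw [← h3, hD]
        congr 1
        exact sum_congr rfl fun j hj => by rw [hout z hz j (mem_compl.1 hj)]
      have h4 : (p : ℤ) ∣ D := by
        rw [← Int.dvd_add_right h1, h2]
        exact dvd_zero _
      exact Int.natCast_dvd.1 h4
  calc (((Z.filter fun z => co 𝒜 z = c).image (part {F})).card : ℝ)
      ≤ ((Fintype.piFinset (fun _ : Fin n => H4Cnt.smoothZ D.natAbs B)).card : ℝ) := by
        exact_mod_cast card_le_card hsubset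
    _ = ((H4Cnt.smoothZ D.natAbs B).card : ℝ) ^ n := by
        rw [Fintype.card_piFinset, prod_const, card_univ, Fintype.card_fin]
        push_cast
        rfl
    _ ≤ K ^ n := pow_le_pow_left₀ (by positivity) hsm n

end Pool.Agent.PSV
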