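import Pool.Agent.PSV.Dyadic

/-!
# The count of the violations of the n-term abc inequality, from `Cnt n t`

PROOF. `θ = 1 - 1/t ∈ [0, 1)`. `D = 2^(n+1)`, `δ' = δ / (D + 1)`; `A₁` from `Cnt n t` for `δ'`, `A₀` from
`exists_big n 0 δ'`, `K = A₀ B^δ' ≥ 1`. For `z ∈ Z`: all `z i ≠ 0` (`I = {i} ≠ univ` because `2 ≤ n`),
`Sol {1} z` (unfold), primitive: `∀ p` prime some `¬ p ∣ z i` (a prime is not a unit in `ℤ`); `Adm`,
`Bds` for `M = dM (dex z)` by `Dyadic`; and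
`∏_(p ∈ prs z) p = exp(∑ log p) ≤ exp((log B - C)/(1+ε)) =: X` so `∏ F, dM (dex z) F ≤ 2^(2^n) X`.
For every `e ∈ Z.image dex` the set `Z_e = Z.filter (dex z = e)` has at most
`A₁ B^δ' (∏ dM e F)^θ ≤ A₁ B^δ' (2^(2^n) X)^θ` elements (`Cnt`; `Z_e` is nonempty, so `Bds (dM e)` holds;
`A₁ ≥ 0` may be assumed: replace it by `|A₁|`). Sum over the at most `(K^2)^(2^n) = K^D` values `e`
(`card_dex`): `|Z| ≤ K^D A₁ B^δ' (2^(2^n) X)^θ`, and `X^θ = exp(-Cθ/(1+ε)) B^(θ/(1+ε))`,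
`K^D B^δ' = A₀^D B^(D δ' + δ') = A₀^D B^δ`.
-/

namespace Pool.Agent.PSV

open Finset

private theorem prod_prs_le {n B : ℕ} {ε C : ℝ} (hε : -1 < ε) {z : Fin n → ℤ}
    (h : (1 + ε) * ∑ p ∈ (∏ i, z i).natAbs.primeFactors, Real.log p + C ≤ Real.log B) :
    ∏ p ∈ prs z, (p : ℝ) ≤ Real.exp ((Real.log B - C) / (1 + ε)) := by
  have h1 : ∏ p ∈ prs z, (p : ℝ) = Real.exp (∑ p ∈ prs z, Real.log p) := by
    rw [Real.exp_sum]
    refine prod_congr rfl fun p hp => ?_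
    have h2 : 0 < p := (Nat.prime_of_mem_primeFactors hp).pos
    exact (Real.exp_log (by exact_mod_cast h2)).symm
  rw [h1]
  refine Real.exp_le_exp.2 ?_
  rw [le_div_iff₀ (by linarith)]
  unfold prs
  linarith

private theorem zero_free {n : ℕ} (hn : 2 ≤ n) {z : Fin n → ℤ}
    (h : ∀ I : Finset (Fin n), I.Nonempty → I ≠ univ → ∑ i ∈ I, z i ≠ 0) (i : Fin n) : z i ≠ 0 := by
  have h1 := h {i} (singleton_nonempty i) (by
    intro h2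
    have h3 := congrArg card h2
    rw [card_singleton, card_univ, Fintype.card_fin] at h3
    omega)
  simpa using h1

private theorem sol_of {n : ℕ} {z : Fin n → ℤ} (h0 : ∑ i, z i = 0)
    (h : ∀ I : Finset (Fin n), I.Nonempty → I ≠ univ → ∑ i ∈ I, z i ≠ 0) :
    Sol {fun _ => 1} z := by
  refine ⟨?_, fun I hI hI' => ⟨_, rfl, ?_⟩⟩
  · intro l hl
    rw [Set.mem_singleton_iff] at hl
    subst hl
    simpa using h0
  · simpa using h I hI hI'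

private theorem prim_of {n : ℕ} {z : Fin n → ℤ} (h : ∀ g : ℤ, (∀ i, g ∣ z i) → IsUnit g) (p : ℕ)
    (hp : p.Prime) : ∃ i, ¬ (p : ℤ) ∣ z i := by
  by_contra hcon
  push Not at hcon
  exact (Nat.prime_iff_prime_int.1 hp).not_isUnit (h p hcon)

theorem main (n : ℕ) (hn : 2 ≤ n) (t : ℝ) (ht : 1 ≤ t) (hc : Cnt n t) (ε δ C : ℝ) (hε : -1 < ε)
    (hδ : 0 < δ) :
    ∃ A : ℝ, ∀ B : ℕ, 1 ≤ B → ∀ Z : Finset (Fin n → ℤ),
      (∀ z ∈ Z, ∑ i, z i = 0 ∧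
        (∀ I : Finset (Fin n), I.Nonempty → I ≠ univ → ∑ i ∈ I, z i ≠ 0) ∧
        (∀ g : ℤ, (∀ i, g ∣ z i) → IsUnit g) ∧ (∀ i, |z i| ≤ B) ∧
        (1 + ε) * ∑ p ∈ (∏ i, z i).natAbs.primeFactors, Real.log p + C ≤ Real.log B) →
      (Z.card : ℝ) ≤ A * (B : ℝ) ^ ((1 - 1 / t) / (1 + ε) + δ) := by
  classical
  have hθ : 0 ≤ 1 - 1 / t := by
    rw [sub_nonneg, div_le_one (by linarith)]
    exact ht
  unfold Cnt at hc
  generalize 1 - 1 / t = θ at *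
  have hD : (0 : ℝ) < (2 * 2 ^ n : ℕ) + 1 := by positivity
  have hδ' : 0 < δ / ((2 * 2 ^ n : ℕ) + 1 : ℝ) := by positivity
  have hDδ : δ / ((2 * 2 ^ n : ℕ) + 1 : ℝ) * ((2 * 2 ^ n : ℕ) + 1 : ℝ) = δ := by
    field_simp
  generalize δ / ((2 * 2 ^ n : ℕ) + 1 : ℝ) = η at hδ' hDδ
  obtain ⟨A₁, hA₁⟩ := hc η hδ'
  obtain ⟨A₀, hA₀1, hA₀⟩ := exists_big n 0 η hδ'
  refine ⟨(A₀ ^ 2) ^ (2 ^ n) * |A₁| * ((2 : ℝ) ^ (2 ^ n)) ^ θ * Real.exp (-(C * θ) / (1 + ε)), ?_⟩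
  intro B hB Z hZ
  have hB0 : (0 : ℝ) < B := by exact_mod_cast hB
  set X : ℝ := Real.exp ((Real.log B - C) / (1 + ε)) with hX
  have hX0 : 0 < X := Real.exp_pos _
  set T : ℝ := |A₁| * (B : ℝ) ^ η * ((2 : ℝ) ^ (2 ^ n) * X) ^ θ with hT
  have hT0 : 0 ≤ T := by positivity
  have hsum : (Z.card : ℝ) ≤ ((Z.image dex).card : ℝ) * T := by
    rw [card_eq_sum_card_image dex Z, Nat.cast_sum, ← nsmul_eq_mul]
    refine sum_le_card_nsmul _ _ _ fun e he => ?_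
    obtain ⟨z, hz, rfl⟩ := mem_image.1 he
    have hbds : Bds (dM (dex z)) := bds_dyadic (prim_of (hZ z hz).2.2.1)
    have h1 := hA₁ B hB (dM (dex z)) hbds (Z.filter fun w => dex w = dex z) (by
      intro w hw
      rw [mem_filter] at hw
      obtain ⟨hw, he⟩ := hw
      obtain ⟨h0, h2, h3, h4, h5⟩ := hZ w hw
      rw [← he]
      exact ⟨adm_dyadic (zero_free hn h2) h4, sol_of h0 h2⟩)
    refine h1.trans ?_
    have h2 : ∏ F, dM (dex z) F ≤ (2 : ℝ) ^ (2 ^ n) * X := by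
      refine (prod_dM (zero_free hn (hZ z hz).2.1)).trans ?_
      exact mul_le_mul_of_nonneg_left (prod_prs_le hε (hZ z hz).2.2.2.2) (by positivity)
    have h3 : (0 : ℝ) ≤ ∏ F, dM (dex z) F := prod_nonneg fun F _ => by
      unfold dM
      positivity
    have h4 : (∏ F, dM (dex z) F) ^ θ ≤ ((2 : ℝ) ^ (2 ^ n) * X) ^ θ :=
      Real.rpow_le_rpow h3 h2 hθ
    have h5 : A₁ * (B : ℝ) ^ η ≤ |A₁| * (B : ℝ) ^ η :=
      mul_le_mul_of_nonneg_right (le_abs_self _) (by positivity)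
    exact mul_le_mul h5 h4 (Real.rpow_nonneg h3 _) (by positivity)
  have hcard : ((Z.image dex).card : ℝ) ≤ ((A₀ * (B : ℝ) ^ η) ^ 2) ^ (2 ^ n) :=
    card_dex hB (hA₀ B hB) Z fun z hz => ⟨zero_free hn (hZ z hz).2.1, (hZ z hz).2.2.2.1⟩
  have h1 : (Z.card : ℝ) ≤ ((A₀ * (B : ℝ) ^ η) ^ 2) ^ (2 ^ n) * T :=
    hsum.trans (mul_le_mul_of_nonneg_right hcard hT0)
  refine h1.trans_eq ?_
  have hXθ : X ^ θ = (B : ℝ) ^ (θ / (1 + ε)) * Real.exp (-(C * θ) / (1 + ε)) := by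
    rw [hX, ← Real.exp_mul, Real.rpow_def_of_pos hB0, ← Real.exp_add]
    congr 1
    have : 1 + ε ≠ 0 := by linarith
    field_simp
    ring
  have hBη : ((B : ℝ) ^ η) ^ (2 * 2 ^ n) * (B : ℝ) ^ η = (B : ℝ) ^ δ := by
    rw [← Real.rpow_natCast, ← Real.rpow_mul hB0.le, ← Real.rpow_add hB0, ← hDδ]
    congr 1
    ring
  rw [hT, Real.mul_rpow (by positivity) hX0.le, hXθ, Real.rpow_add hB0, ← hBη]
  ring

end Pool.Agent.PSV
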