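import Pool.Agent.PSV.Defs

/-!
# Two linear equations

PROOF of `finrank_perp_pair`. `Perp {a, b}` is the kernel of the linear map
`f v = (∑ a k v k, ∑ b k v k)` from `Fin n → ℚ` to `ℚ × ℚ`. `f` is surjective: its values at the unit
vectors `e_i, e_j` are `(a i, b i)`, `(a j, b j)`, with non-zero determinant (hypothesis). Rank-nullity:
`finrank ker + 2 = n`.
PROOF of `zer_one`: unfold. `sol_one`, `perp_one`: unfold.
-/

namespace Pool.Agent.PSV

open Finset Module

variable {n : ℕ}

/-- The linear form of an integral vector. -/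
private def lin (a : Fin n → ℤ) : (Fin n → ℚ) →ₗ[ℚ] ℚ where
  toFun v := ∑ k, (a k : ℚ) * v k
  map_add' v w := by simp [mul_add, sum_add_distrib]
  map_smul' c v := by
    simp only [Pi.smul_apply, smul_eq_mul, RingHom.id_apply, mul_sum]
    exact sum_congr rfl fun i _ => by ring

private theorem lin_apply (a : Fin n → ℤ) (v : Fin n → ℚ) : lin a v = ∑ k, (a k : ℚ) * v k := rfl

private theorem lin_single (a : Fin n → ℤ) (i : Fin n) (c : ℚ) :
    lin a (Pi.single i c) = a i * c := by
  rw [lin_apply, sum_eq_single i]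
  · simp
  · intro k _ hk
    simp [hk]
  · simp

theorem finrank_perp_pair (a b : Fin n → ℤ) {i j : Fin n} (hij : a i * b j ≠ a j * b i) :
    finrank ℚ (Perp {a, b}) ≤ n - 2 := by
  have hker : Perp {a, b} = LinearMap.ker ((lin a).prod (lin b)) := by
    ext v
    have h1 : ((lin a).prod (lin b)) v = (lin a v, lin b v) := rfl
    rw [LinearMap.mem_ker, h1, Prod.mk_eq_zero, lin_apply, lin_apply]
    simp only [Perp, Submodule.mem_mk, AddSubmonoid.mem_mk, AddSubsemigroup.mem_mk,
      Set.mem_ofPred_eq, Set.mem_insert_iff, Set.mem_singleton_iff, forall_eq_or_imp, forall_eq]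
  have hD : (a i * b j - a j * b i : ℚ) ≠ 0 := by
    intro h
    apply hij
    have h2 : (a i * b j : ℚ) = a j * b i := by linarith
    exact_mod_cast h2
  have hsurj : Function.Surjective ((lin a).prod (lin b)) := by
    rintro ⟨x, y⟩
    refine ⟨Pi.single i ((x * b j - y * a j) / (a i * b j - a j * b i)) +
      Pi.single j ((y * a i - x * b i) / (a i * b j - a j * b i)), ?_⟩
    have h1 : ∀ v, ((lin a).prod (lin b)) v = (lin a v, lin b v) := fun _ => rfl
    rw [h1]
    simp only [map_add, lin_single, Prod.mk.injEq]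
    constructor
    · rw [← mul_div_assoc, ← mul_div_assoc, ← add_div, div_eq_iff hD]
      ring
    · rw [← mul_div_assoc, ← mul_div_assoc, ← add_div, div_eq_iff hD]
      ring
  have h1 := LinearMap.finrank_range_add_finrank_ker ((lin a).prod (lin b))
  rw [LinearMap.range_eq_top.2 hsurj, finrank_top, Module.finrank_prod, Module.finrank_self,
    Module.finrank_fin_fun] at h1
  rw [hker]
  omega

theorem mem_perp_pair (a b v : Fin n → ℤ) :
    rat v ∈ Perp {a, b} ↔ ∑ k, a k * v k = 0 ∧ ∑ k, b k * v k = 0 := by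
  simp only [Perp, Submodule.mem_mk, AddSubmonoid.mem_mk, AddSubsemigroup.mem_mk,
      Set.mem_ofPred_eq, Set.mem_insert_iff, Set.mem_singleton_iff, forall_eq_or_imp, forall_eq,
      rat]
  constructor
  · rintro ⟨h1, h2⟩
    exact ⟨by exact_mod_cast h1, by exact_mod_cast h2⟩
  · rintro ⟨h1, h2⟩
    exact ⟨by exact_mod_cast h1, by exact_mod_cast h2⟩

theorem zer_one (z : Fin n → ℤ) : Zer {fun _ => 1} z ↔ ∑ k, z k = 0 := by
  simp [Zer]

theorem sol_one (z : Fin n → ℤ) : Sol {fun _ => 1} z ↔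
    ∑ k, z k = 0 ∧ ∀ I : Finset (Fin n), I.Nonempty → I ≠ univ → ∑ k ∈ I, z k ≠ 0 := by
  constructor
  · intro h
    refine ⟨(zer_one z).1 h.zer, fun I hI hI' => ?_⟩
    obtain ⟨l, hl, h2⟩ := h.nondeg I hI hI'
    rw [Set.mem_singleton_iff] at hl
    subst hl
    simpa using h2
  · rintro ⟨h1, h2⟩
    refine ⟨(zer_one z).2 h1, fun I hI hI' => ⟨_, rfl, ?_⟩⟩
    simpa using h2 I hI hI'

end Pool.Agent.PSV
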