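import Pool.Agent.PSV.StarPlane
import Pool.Agent.PSV.Dual
import Pool.Agent.PSV.PerpPair

/-!
# n = 4: few bad partners

STATEMENT. `y` positive admissible with types in the star family `𝒜` (all of them contain `i₀`), `c * y` a
nondegenerate solution of `z 0 + z 1 + z 2 + z 3 = 0`. The positive admissible `y'` with types in `𝒜`,
`∑ c k y' k = 0` and `y k * y' l = y l * y' k` for some `k ≠ l` number at most `16 K^2`.

PROOF. `T = ⋃_(k ≠ l) T_(k,l)`, at most 16 pairs; show `|T_(k,l)| ≤ K^2`. Let `e` be the integral vector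
with `e l = y k`, `e k = - y l`, and 0 elsewhere, `W = Perp {c, e}`. With an index `r ∉ {k, l}`:
`c r * e l = c r * y k ≠ 0 = c l * e r`, so `finrank W ≤ 2` (`finrank_perp_pair`). `rat y ∈ W`
(`∑ c k y k = 0` by `sol_one`, `∑ e k y k = y k y l - y l y k = 0`), `rat y' ∈ W` for `y' ∈ T_(k,l)`. If
every element of `T_(k,l)` is `y`: `|T_(k,l)| ≤ 1 ≤ K^2`. Otherwise let `y₁ ∈ T_(k,l)`, `y₁ ≠ y`:
`exists_ne` and `span_pair` give `W = span {rat y, rat y₁}`, and `star_plane` (with `y' := y₁`,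
`Z := T_(k,l)`) gives `|T_(k,l)| ≤ K^2`.
-/

namespace Pool.Agent.PSV

open Finset

variable {B m : ℕ} {K : ℝ} {M : Finset (Fin 4) → ℝ}

private theorem four_bad_pair (hB : 1 ≤ B) (hK : Big 4 B m K) (hm : 40 ≤ m) (hM : Bds M)
    (i₀ : Fin 4) (𝒜 : Finset (Finset (Fin 4))) (h𝒜 : ∀ F ∈ 𝒜, i₀ ∈ F) {c y : Fin 4 → ℤ}
    (hc0 : ∀ i, c i ≠ 0) (hy : Adm B (Mr 𝒜 M) y) (hpos : ∀ i, 0 < y i)
    (hs : Sol {fun _ => 1} (c * y)) (k l : Fin 4) (hkl : k ≠ l) (T : Finset (Fin 4 → ℤ))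
    (hT : ∀ y' ∈ T, Adm B (Mr 𝒜 M) y' ∧ (∀ i, 0 < y' i) ∧ ∑ k, c k * y' k = 0 ∧
      y k * y' l = y l * y' k) : (T.card : ℝ) ≤ K ^ 2 := by
  have hK4 : 4 ≤ K := hK.four_le
  have hK2 : (1 : ℝ) ≤ K ^ 2 := by nlinarith
  by_cases hall : ∀ z ∈ T, z = y
  · have hsub : T ⊆ {y} := fun z hz => by rw [mem_singleton]; exact hall z hz
    have h1 : T.card ≤ 1 := by simpa using card_le_card hsub
    calc (T.card : ℝ) ≤ 1 := by exact_mod_cast h1
      _ ≤ K ^ 2 := hK2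
  push Not at hall
  obtain ⟨y₁, hy₁, hne⟩ := hall
  obtain ⟨ha₁, hp₁, hs₁, he₁⟩ := hT y₁ hy₁
  set e : Fin 4 → ℤ := fun i => if i = l then y k else if i = k then - y l else 0 with he
  have hsum : ∀ v : Fin 4 → ℤ, ∑ i, e i * v i = y k * v l - y l * v k := by
    intro v
    have h1 : ∀ i, e i * v i =
        (if i = l then y k * v i else 0) + (if i = k then - y l * v i else 0) := by
      intro i
      simp only [he]
      by_cases h1 : i = l
      · have h2 : i ≠ k := fun h => hkl (by rw [← h, h1])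
        rw [if_pos h1, if_pos h1, if_neg h2, add_zero]
      · rw [if_neg h1, if_neg h1, zero_add]
        by_cases h2 : i = k
        · rw [if_pos h2, if_pos h2]
        · rw [if_neg h2, if_neg h2, zero_mul]
    rw [sum_congr rfl fun i _ => h1 i, sum_add_distrib, sum_ite_eq' univ l, sum_ite_eq' univ k]
    simp only [mem_univ, if_true]
    ring
  have hr4 : ∀ k l : Fin 4, ∃ r : Fin 4, r ≠ k ∧ r ≠ l := by decide
  obtain ⟨r, hrk, hrl⟩ := hr4 k l
  have her : e r = 0 := by show (if r = l then y k else if r = k then - y l else 0) = 0; rw [if_neg hrl, if_neg hrk]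
  have hel : e l = y k := if_pos rfl
  have hdet : c r * e l ≠ c l * e r := by
    rw [her, hel, mul_zero]
    exact mul_ne_zero (hc0 r) (hpos k).ne'
  have hfin : Module.finrank ℚ (Perp {c, e}) ≤ 2 := finrank_perp_pair c e hdet
  have hmem : ∀ v : Fin 4 → ℤ, ∑ i, c i * v i = 0 → y k * v l = y l * v k →
      rat v ∈ Perp {c, e} := by
    intro v h1 h2
    rw [mem_perp_pair, hsum]
    exact ⟨h1, by rw [h2, sub_self]⟩
  have hcy : ∑ i, c i * y i = 0 := by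
    have := ((sol_one (c * y)).1 hs).1
    simpa [Pi.mul_apply] using this
  have hyW : rat y ∈ Perp {c, e} := hmem y hcy (mul_comm _ _)
  have hy₁W : rat y₁ ∈ Perp {c, e} := hmem y₁ hs₁ he₁
  obtain ⟨i, j, hij⟩ := exists_ne (hM.mr 𝒜) (hM.mr 𝒜) hy ha₁ hpos hp₁ (Ne.symm hne)
  have hW := span_pair hij (Perp {c, e}) hfin hyW hy₁W
  have hz1 : Zer {fun _ => 1} (c * y₁) := by
    rw [zer_one]
    simpa [Pi.mul_apply] using hs₁
  refine star_plane hB hK (by norm_num; omega) hM i₀ 𝒜 h𝒜 hy ha₁ hpos hp₁ hs hz1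
    (Ne.symm hne) T (fun z hz => (hT z hz).1) ?_
  intro z hz
  rw [← hW]
  obtain ⟨-, -, h1, h2⟩ := hT z hz
  exact hmem z h1 h2

theorem four_bad (hB : 1 ≤ B) (hK : Big 4 B m K) (hm : 40 ≤ m) (hM : Bds M) (i₀ : Fin 4)
    (𝒜 : Finset (Finset (Fin 4))) (h𝒜 : ∀ F ∈ 𝒜, i₀ ∈ F) {c y : Fin 4 → ℤ} (hc0 : ∀ i, c i ≠ 0)
    (hy : Adm B (Mr 𝒜 M) y) (hpos : ∀ i, 0 < y i) (hs : Sol {fun _ => 1} (c * y))
    (T : Finset (Fin 4 → ℤ))
    (hT : ∀ y' ∈ T, Adm B (Mr 𝒜 M) y' ∧ (∀ i, 0 < y' i) ∧ ∑ k, c k * y' k = 0 ∧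
      ∃ k l, k ≠ l ∧ y k * y' l = y l * y' k) :
    (T.card : ℝ) ≤ 16 * K ^ 2 := by
  classical
  have hK4 : 4 ≤ K := hK.four_le
  have hK2 : (0 : ℝ) ≤ K ^ 2 := by positivity
  set P : Finset (Fin 4 × Fin 4) := univ.filter fun q => q.1 ≠ q.2 with hP
  have hsub : T ⊆ P.biUnion fun q => T.filter fun y' => y q.1 * y' q.2 = y q.2 * y' q.1 := by
    intro z hz
    obtain ⟨-, -, -, k, l, hkl, h⟩ := hT z hz
    rw [mem_biUnion]
    exact ⟨(k, l), by rw [hP, mem_filter]; exact ⟨mem_univ _, hkl⟩,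
      by rw [mem_filter]; exact ⟨hz, h⟩⟩
  have hP16 : P.card ≤ 16 := by
    calc P.card ≤ (univ : Finset (Fin 4 × Fin 4)).card := card_le_card (filter_subset _ _)
      _ = 16 := by simp
  calc (T.card : ℝ)
      ≤ ((P.biUnion fun q => T.filter fun y' => y q.1 * y' q.2 = y q.2 * y' q.1).card : ℝ) := by
        exact_mod_cast card_le_card hsub
    _ ≤ ∑ q ∈ P, ((T.filter fun y' => y q.1 * y' q.2 = y q.2 * y' q.1).card : ℝ) := by
        exact_mod_cast card_biUnion_le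
    _ ≤ ∑ q ∈ P, K ^ 2 := by
        refine sum_le_sum fun q hq => ?_
        rw [hP, mem_filter] at hq
        refine four_bad_pair hB hK hm hM i₀ 𝒜 h𝒜 hc0 hy hpos hs q.1 q.2 hq.2 _ ?_
        intro z hz
        rw [mem_filter] at hz
        obtain ⟨h1, h2, h3, -⟩ := hT z hz.1
        exact ⟨h1, h2, h3, hz.2⟩
    _ = P.card * K ^ 2 := by rw [sum_const, nsmul_eq_mul]
    _ ≤ 16 * K ^ 2 := by
        refine mul_le_mul_of_nonneg_right ?_ hK2
        exact_mod_cast hP16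

end Pool.Agent.PSV
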