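import Mathlib

/-!
# n = 4: the compatible complementary parts of a good pair have four classes

PROOF. Suppose `k ≠ l` and `c k * c' l = c l * c' k`. Put `d i = c k * c' i - c' k * c i`. Then `d k = 0`,
`d l = 0`, `∑ d i * y i = 0`, `∑ d i * y' i = 0`. Let `r, s` be the two other indices
(`Finset.exists...`, or decide over `Fin 4`): `d r * y r + d s * y s = 0`, `d r * y' r + d s * y' s = 0`, so
`d r * (y r * y' s - y s * y' r) = 0`, `d s * (y r * y' s - y s * y' r) = 0` and `hgood` gives
`d r = d s = 0`: `d = 0`. So `c k * c' i = c' k * c i` for all `i`, and then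
`c k * (c i * c' j) = c k * (c j * c' i)` for all `i, j`; `c k ≠ 0`: contradiction to `hne`.
(In Lean: `fin_cases k <;> fin_cases l`, `Fin.sum_univ_four`.)
-/

namespace Pool.Agent.PSV

private theorem fs_idx : ∀ k l : Fin 4, k ≠ l → ∃ r s : Fin 4, r ≠ s ∧
    ∀ i, i ≠ r ∧ i ≠ s → i = k ∨ i = l := by decide

theorem four_struct {y y' c c' : Fin 4 → ℤ} (hgood : ∀ k l, k ≠ l → y k * y' l ≠ y l * y' k)
    (h1 : ∑ i, c i * y i = 0) (h2 : ∑ i, c i * y' i = 0) (h3 : ∑ i, c' i * y i = 0)
    (h4 : ∑ i, c' i * y' i = 0) (hc : ∀ i, c i ≠ 0) (hne : ∃ i j, c i * c' j ≠ c j * c' i)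
    (k l : Fin 4) (hkl : k ≠ l) : c k * c' l ≠ c l * c' k := by
  intro heq
  obtain ⟨r, s, hrs, hidx⟩ := fs_idx k l hkl
  set d : Fin 4 → ℤ := fun i => c k * c' i - c' k * c i with hd
  have hd0 : ∀ i, i ≠ r ∧ i ≠ s → d i = 0 := by
    intro i hi
    rcases hidx i hi with h | h
    · subst h; simp only [hd]; ring
    · subst h; simp only [hd]; linear_combination heq
  have e1 : ∑ i, d i * y i = 0 := by
    have : ∑ i, d i * y i = c k * ∑ i, c' i * y i - c' k * ∑ i, c i * y i := by
      rw [Finset.mul_sum, Finset.mul_sum, ← Finset.sum_sub_distrib]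
      refine Finset.sum_congr rfl fun i _ => ?_
      simp only [hd]; ring
    rw [this, h3, h1]; ring
  have e2 : ∑ i, d i * y' i = 0 := by
    have : ∑ i, d i * y' i = c k * ∑ i, c' i * y' i - c' k * ∑ i, c i * y' i := by
      rw [Finset.mul_sum, Finset.mul_sum, ← Finset.sum_sub_distrib]
      refine Finset.sum_congr rfl fun i _ => ?_
      simp only [hd]; ring
    rw [this, h4, h2]; ring
  rw [Fintype.sum_eq_add r s hrs (fun i hi => by rw [hd0 i hi, zero_mul])] at e1 e2
  have hg := hgood r s hrs
  have hdet : y r * y' s - y s * y' r ≠ 0 := sub_ne_zero.2 hg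
  have hr : d r = 0 := by
    have : d r * (y r * y' s - y s * y' r) = 0 := by
      linear_combination y' s * e1 - y s * e2
    exact (mul_eq_zero.1 this).resolve_right hdet
  have hs : d s = 0 := by
    have : d s * (y r * y' s - y s * y' r) = 0 := by
      linear_combination y r * e2 - y' r * e1
    exact (mul_eq_zero.1 this).resolve_right hdet
  have hall : ∀ i, d i = 0 := by
    intro i
    by_cases hi : i = r
    · rw [hi, hr]
    · by_cases hi' : i = s
      · rw [hi', hs]
      · exact hd0 i ⟨hi, hi'⟩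
  obtain ⟨i, j, hij⟩ := hne
  apply hij
  have hi : c k * c' i = c' k * c i := by have := hall i; simp only [hd] at this; linarith
  have hj : c k * c' j = c' k * c j := by have := hall j; simp only [hd] at this; linarith
  have : c k * (c i * c' j) = c k * (c j * c' i) := by
    linear_combination c i * hj - c j * hi
  exact mul_left_cancel₀ (hc k) this

end Pool.Agent.PSV
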