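import Pool.Agent.PSV.Dual
import Pool.Agent.PSV.PerpPair
import Pool.Agent.PSV.FourStruct

/-!
# n = 4: few complementary parts are compatible with a good pair

STATEMENT. `y, y'` integral with `y k * y' l ≠ y l * y' k` for all `k ≠ l`; `M {i} = 1`. Then at most
`2 K^2 M {j}` admissible `c` satisfy `∑ c k y k = 0` and `∑ c k y' k = 0` (`j ≠ i`).

PROOF. `W = Perp {y, y'}`, `finrank W ≤ 4 - 2 = 2` (`finrank_perp_pair`), `rat c ∈ W` for `c ∈ C'`
(`mem_perp_pair`). `card_dual` (`2 * 4^2 + 2 * 4 = 40`): either `|C'| ≤ 2 ≤ 2 K^2 M {j}` (`K ≥ 4` by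
`Big.four_le`, `M {j} ≥ 1`), or there are `a, b ∈ C'`, not proportional, with
`|C'| ≤ K^2 (M (cls a b r) * M (cls a b s))` for all `r, s` with `a r * b s ≠ a s * b r`. By `four_struct`
(`c := a`, `c' := b`) `cls a b r = {r}` for all `r`; take `r = i`, `s = j`: `|C'| ≤ K^2 (1 * M {j})`.
-/

namespace Pool.Agent.PSV

open Finset

variable {B m : ℕ} {K : ℝ} {M : Finset (Fin 4) → ℝ}

theorem four_good (hB : 1 ≤ B) (hK : Big 4 B m K) (hm : 40 ≤ m) (hM : Bds M) (y y' : Fin 4 → ℤ)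
    (hgood : ∀ k l, k ≠ l → y k * y' l ≠ y l * y' k) (i j : Fin 4) (hij : i ≠ j)
    (hMi : M {i} = 1) (C' : Finset (Fin 4 → ℤ))
    (hC' : ∀ c ∈ C', Adm B M c ∧ ∑ k, c k * y k = 0 ∧ ∑ k, c k * y' k = 0) :
    (C'.card : ℝ) ≤ 2 * K ^ 2 * M {j} := by
  have hMj : 1 ≤ M {j} := hM.one_le {j}
  have hK4 : (4 : ℝ) ≤ K := by
    have h1 := hK.log_le
    have h2 : 0 ≤ Real.log (2 * (B : ℝ) + 1) := Real.log_nonneg (by have : (0:ℝ) ≤ (B:ℝ) := Nat.cast_nonneg B; linarith)
    nlinarith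
  have hK2 : (16 : ℝ) ≤ K ^ 2 := by nlinarith
  have hfr : Module.finrank ℚ (Perp {y, y'}) ≤ 2 := by
    have := finrank_perp_pair y y' (i := i) (j := j) (hgood i j hij)
    simpa using this
  have hZ : ∀ z ∈ C', Adm B M z ∧ rat z ∈ Perp {y, y'} := by
    intro z hz
    obtain ⟨h1, h2, h3⟩ := hC' z hz
    refine ⟨h1, (mem_perp_pair y y' z).2 ⟨?_, ?_⟩⟩
    · rw [← h2]; exact sum_congr rfl fun k _ => by ring
    · rw [← h3]; exact sum_congr rfl fun k _ => by ring
  rcases card_dual hB hK (by norm_num; exact hm) hM (Perp {y, y'}) hfr C' hZ with h | h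
  · have h' : (C'.card : ℝ) ≤ 2 := by exact_mod_cast h
    nlinarith
  · obtain ⟨a, ha, b, hb, hne, hall⟩ := h
    obtain ⟨ha1, ha2, ha3⟩ := hC' a ha
    obtain ⟨-, hb2, hb3⟩ := hC' b hb
    have hst : ∀ k l : Fin 4, k ≠ l → a k * b l ≠ a l * b k := fun k l hkl =>
      four_struct hgood ha2 ha3 hb2 hb3 ha1.ne_zero hne k l hkl
    have hcls : ∀ r : Fin 4, cls a b r = {r} := by
      intro r
      ext k
      simp only [cls, mem_filter, mem_univ, true_and, mem_singleton]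
      constructor
      · intro h
        by_contra hk
        exact hst r k (Ne.symm hk) h
      · rintro rfl; rfl
    have := hall i j (hst i j hij)
    rw [hcls, hcls, hMi, one_mul] at this
    nlinarith [mul_nonneg (sq_nonneg K) (zero_le_one.trans hMj)]

end Pool.Agent.PSV
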