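import Pool.Agent.PSV.Count

/-!
# n = 4: all coordinates have small radicals

PROOF. The map `z ↦ (z 0, z 1, z 2)` is injective on `Z` (`z 3 = - z 0 - z 1 - z 2`,
`Fin.sum_univ_four`), and each coordinate takes at most `K * σ` values (`card_coord`): at most
`(K σ)^3` elements (`Finset.card_product`, `Finset.card_le_card_of_injOn` into the product of the three
images).
-/

namespace Pool.Agent.PSV

open Finset

variable {B m : ℕ} {K : ℝ} {M : Finset (Fin 4) → ℝ}

theorem four_low (hB : 1 ≤ B) (hK : Big 4 B m K) (hm : 4 ≤ m) (hM : ∀ F, 1 ≤ M F) (σ : ℝ)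
    (hσ : 1 ≤ σ) (h : ∀ i, ∏ F ∈ univ.filter (fun F => i ∈ F), M F ≤ σ)
    (Z : Finset (Fin 4 → ℤ)) (hZ : ∀ z ∈ Z, Adm B M z ∧ ∑ k, z k = 0) :
    (Z.card : ℝ) ≤ K ^ 3 * σ ^ 3 := by
  classical
  have hK0 : 0 ≤ K := by
    have h1 := hK.log_le
    have h2 : 0 ≤ Real.log (2 * (B : ℝ) + 1) := Real.log_nonneg (by
      have : (0 : ℝ) ≤ (B : ℝ) := Nat.cast_nonneg _
      linarith)
    have h3 : (0 : ℝ) ≤ ((4 : ℕ) : ℝ) ^ 2 + 4 + ((4 : ℕ) : ℝ) * Real.log (2 * (B : ℝ) + 1) := by
      positivity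
    linarith
  have hc : ∀ i, ((Z.image fun z => z i).card : ℝ) ≤ K * σ := fun i =>
    (card_coord hB hK hm hM Z (fun z hz => (hZ z hz).1) i).trans
      (mul_le_mul_of_nonneg_left (h i) hK0)
  set T := (Z.image fun z => z 0) ×ˢ ((Z.image fun z => z 1) ×ˢ (Z.image fun z => z 2)) with hT
  have h1 : Z.card ≤ T.card := by
    refine Finset.card_le_card_of_injOn (fun z => (z 0, z 1, z 2)) ?_ ?_
    · intro z hz
      have hz' : z ∈ Z := hz
      simp only [hT, Finset.coe_product, Set.mem_prod, Finset.mem_coe]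
      exact ⟨Finset.mem_image_of_mem _ hz', Finset.mem_image_of_mem _ hz',
        Finset.mem_image_of_mem _ hz'⟩
    · intro z hz z' hz' heq
      have hs := (hZ z hz).2
      have hs' := (hZ z' hz').2
      rw [Fin.sum_univ_four] at hs hs'
      simp only [Prod.mk.injEq] at heq
      obtain ⟨e0, e1, e2⟩ := heq
      funext i
      fin_cases i
      · exact e0
      · exact e1
      · exact e2
      · show z 3 = z' 3
        linarith
  have h2 : (T.card : ℝ) ≤ (K * σ) * ((K * σ) * (K * σ)) := by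
    rw [hT, Finset.card_product, Finset.card_product]
    push_cast
    have hKσ : 0 ≤ K * σ := mul_nonneg hK0 (by linarith)
    exact mul_le_mul (hc 0) (mul_le_mul (hc 1) (hc 2) (by positivity) hKσ) (by positivity) hKσ
  calc (Z.card : ℝ) ≤ (T.card : ℝ) := by exact_mod_cast h1
    _ ≤ (K * σ) * ((K * σ) * (K * σ)) := h2
    _ = K ^ 3 * σ ^ 3 := by ring

end Pool.Agent.PSV
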