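import Pool.Agent.PSV.Count

/-!
# Splitting a set of vectors into parts

`solr 𝒜 Z c y`: some `z ∈ Z` has complementary part `c` and part `y`.
PROOFS. `solr_mul`: `part_mul_co`, commutativity. `card_le_sum`: `z ↦ (co z, part z)` is injective on `Z`
(`part_mul_co`) with values in the pairs counted on the right (`Finset.card_sigma` or
`Finset.sum_card_bipartiteAbove_eq...`; or `card_eq_sum_card_image` for `co 𝒜` and injectivity of `part`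
on the fibres). `adm_image_part`, `adm_image_co`: `Adm.part`, `Adm.co`, `part_pos`. `card_image_part`,
`card_image_co`: `card_adm` with `Mr 𝒜 M`, `Mr 𝒜ᶜ M` and `prod_Mr`. `card_le_box`: subset of the
box `∏ Icc (-B) B` (`Fintype.piFinset`, `Int.card_Icc`).
-/

namespace Pool.Agent.PSV

open Finset

variable {n B m : ℕ} {K : ℝ} {M : Finset (Fin n) → ℝ}

def solr (𝒜 : Finset (Finset (Fin n))) (Z : Finset (Fin n → ℤ)) (c y : Fin n → ℤ) : Prop :=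
  ∃ z ∈ Z, co 𝒜 z = c ∧ part 𝒜 z = y

theorem solr_mul {𝒜 : Finset (Finset (Fin n))} {Z : Finset (Fin n → ℤ)} {c y : Fin n → ℤ}
    (h : solr 𝒜 Z c y) : c * y ∈ Z := by
  obtain ⟨z, hz, rfl, rfl⟩ := h
  rw [mul_comm, part_mul_co]
  exact hz

open scoped Classical in
theorem card_le_sum (𝒜 : Finset (Finset (Fin n))) (Z : Finset (Fin n → ℤ)) :
    (Z.card : ℝ) ≤ ∑ c ∈ Z.image (co 𝒜), (((Z.image (part 𝒜)).filter (solr 𝒜 Z c)).card : ℝ) := by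
  have h1 : Z.card = ∑ c ∈ Z.image (co 𝒜), (Z.filter fun z => co 𝒜 z = c).card :=
    Finset.card_eq_sum_card_image (co 𝒜) Z
  rw [h1]
  push_cast
  apply sum_le_sum
  intro c _
  have h2 : (Z.filter fun z => co 𝒜 z = c).card ≤
      ((Z.image (part 𝒜)).filter (solr 𝒜 Z c)).card := by
    apply Finset.card_le_card_of_injOn (part 𝒜)
    · intro z hz
      have hz' := mem_filter.1 (mem_coe.1 hz)
      apply mem_coe.2
      exact mem_filter.2 ⟨mem_image_of_mem _ hz'.1, z, hz'.1, hz'.2, rfl⟩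
    · intro z hz w hw hzw
      have hz' := mem_filter.1 (mem_coe.1 hz)
      have hw' := mem_filter.1 (mem_coe.1 hw)
      rw [← part_mul_co 𝒜 z, ← part_mul_co 𝒜 w, hzw, hz'.2, hw'.2]
  exact_mod_cast h2

theorem adm_image_part (𝒜 : Finset (Finset (Fin n))) (hM : ∀ F, 1 ≤ M F)
    (Z : Finset (Fin n → ℤ)) (hZ : ∀ z ∈ Z, Adm B M z) :
    ∀ y ∈ Z.image (part 𝒜), Adm B (Mr 𝒜 M) y ∧ ∀ i, 0 < y i := by
  intro y hy
  obtain ⟨z, hz, rfl⟩ := mem_image.1 hy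
  exact ⟨Adm.part 𝒜 hM (hZ z hz), part_pos 𝒜 z⟩

theorem adm_image_co (𝒜 : Finset (Finset (Fin n))) (hM : ∀ F, 1 ≤ M F)
    (Z : Finset (Fin n → ℤ)) (hZ : ∀ z ∈ Z, Adm B M z) :
    ∀ c ∈ Z.image (co 𝒜), Adm B (Mr 𝒜ᶜ M) c := by
  intro y hy
  obtain ⟨z, hz, rfl⟩ := mem_image.1 hy
  exact Adm.co 𝒜 hM (hZ z hz)

private theorem one_le_Mr (𝒜 : Finset (Finset (Fin n))) (hM : ∀ F, 1 ≤ M F) (F : Finset (Fin n)) :
    1 ≤ Mr 𝒜 M F := by
  unfold Mr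
  split_ifs
  · exact hM F
  · exact le_refl _

theorem card_image_part (hB : 1 ≤ B) (hK : Big n B m K) (hm : n ≤ m) (hM : ∀ F, 1 ≤ M F)
    (𝒜 : Finset (Finset (Fin n))) (Z : Finset (Fin n → ℤ)) (hZ : ∀ z ∈ Z, Adm B M z) :
    ((Z.image (part 𝒜)).card : ℝ) ≤ K ^ n * ∏ F ∈ 𝒜, M F := by
  rw [← prod_Mr 𝒜 M]
  exact card_adm hB hK hm (one_le_Mr 𝒜 hM) _ fun y hy => (adm_image_part 𝒜 hM Z hZ y hy).1

theorem card_image_co (hB : 1 ≤ B) (hK : Big n B m K) (hm : n ≤ m) (hM : ∀ F, 1 ≤ M F)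
    (𝒜 : Finset (Finset (Fin n))) (Z : Finset (Fin n → ℤ)) (hZ : ∀ z ∈ Z, Adm B M z) :
    ((Z.image (co 𝒜)).card : ℝ) ≤ K ^ n * ∏ F ∈ 𝒜ᶜ, M F := by
  rw [← prod_Mr 𝒜ᶜ M]
  exact card_adm hB hK hm (one_le_Mr 𝒜ᶜ hM) _ (adm_image_co 𝒜 hM Z hZ)

theorem card_le_box (Z : Finset (Fin n → ℤ)) (hZ : ∀ z ∈ Z, ∀ i, |z i| ≤ B) :
    (Z.card : ℝ) ≤ (2 * B + 1 : ℝ) ^ n := by
  have h1 : Z ⊆ Fintype.piFinset fun _ : Fin n => Icc (-(B : ℤ)) B := by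
    intro z hz
    rw [Fintype.mem_piFinset]
    intro i
    rw [mem_Icc]
    exact abs_le.1 (hZ z hz i)
  have h2 := card_le_card h1
  rw [Fintype.card_piFinset, prod_const, card_univ, Fintype.card_fin, Int.card_Icc] at h2
  have h3 : ((B : ℤ) + 1 - -(B : ℤ)).toNat = 2 * B + 1 := by omega
  rw [h3] at h2
  exact_mod_cast h2

end Pool.Agent.PSV
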