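import Pool.Agent.PSV.FourChoose
import Pool.Agent.PSV.FourBad
import Pool.Agent.PSV.FourGood
import Pool.Agent.PSV.FourLow
import Pool.Agent.PSV.Fibre
import Pool.Agent.PSV.Split
import Pool.Agent.PSV.Cauchy2

/-!
# n = 4: saving 1/4

PROOF of `four`. `m = 40`, `c = 17`. `P = ∏ F, M F ≥ 1`, `σ = P ^ (1/4)`, `P = σ^4`,
`P^(3/4) = σ^3`, `K ≥ 4`.
Case 1: `σ ≤ 1`, so `P = 1`, `σ = 1`: `card_adm`: `|Z| ≤ K^4`. Let `σ > 1`.
Case 2: `M F ≥ σ` for some `F` (`F ≠ univ` as `M univ = 1`): `fibre` (`L = {1}`, `k = 0`):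
`|Z| ≤ K^8 P/σ = K^8 σ^3`.
Case 2': `M F * M G ≥ σ` for some `∅ ≠ F ⊂ G ≠ univ`: `fibre2`: `|Z| ≤ K^12 P/σ`.
Case 3: all `∏_(F ∋ i) M F ≤ σ`: `four_low`: `|Z| ≤ K^3 σ^3`.
Case 4: none of these: `σ < ∏_(F ∋ i) M F` for some `i`. `four_choose` gives `𝒜`, `j ≠ i`;
`R = ∏_𝒜 M ≥ σ`, `R * M {j} < σ^2`, `Q = ∏_(𝒜ᶜ) M = P/R`. `Y = Z.image (part 𝒜)`,
`C = Z.image (co 𝒜)`. `card_le_sum`, `cauchy2` with `sol = solr 𝒜 Z`,
`bad y y' := ∃ k l, k ≠ l ∧ y k * y' l = y l * y' k`, `K1 = 16 K^2 ≤ K^4`, `G = 2 K^2 M {j}`.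
`hbad`: `four_bad` (`i₀ = i`; `solr 𝒜 Z c y` gives `c * y ∈ Z` by `solr_mul`, `adm_image_part`,
`adm_image_co`, `sol_one`). `hgood`: `four_good` with `M := Mr 𝒜ᶜ M`: `Mr 𝒜ᶜ M {i} = 1` because
`{i} ∈ 𝒜`; `Mr 𝒜ᶜ M {j} = M {j}` because `i ∉ {j}`, so `{j} ∉ 𝒜`.
Result: `|Z| ≤ 2 K^4 K^4 Q + sqrt (2 K^4 Q (K^4 R)^2 * 2 K^2 M {j})`. First: `Q ≤ P/σ = σ^3`, and
`2 ≤ K`. Second: `Q R^2 M {j} = P R M {j} ≤ σ^4 σ^2`, so the root is `≤ sqrt (4 K^14) σ^3 ≤ K^8 σ^3`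
(`4 ≤ K^2`). Sum `≤ 2 K^9 σ^3 ≤ K^17 σ^3`.
PROOF of `cnt_four`. `δ > 0`: `(c, m)` from `four`, `A₀` from `exists_big 4 m (δ / (c + 1))`,
`K = A₀ B^(δ/(c+1))`, `K^c = A₀^c B^(c δ/(c+1)) ≤ A₀^c B^δ` (`B ≥ 1`).
-/

namespace Pool.Agent.PSV

open Finset

private theorem ent_one_four (B : ℕ) : Ent B 0 ({fun _ => 1} : Set (Fin 4 → ℤ)) := by
  intro l hl i
  rw [Set.mem_singleton_iff] at hl
  rw [hl]
  simp

private theorem case4_four {B : ℕ} {K : ℝ} (hB : 1 ≤ B) (hK : Big 4 B 40 K)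
    {M : Finset (Fin 4) → ℝ} (hM : Bds M) (Z : Finset (Fin 4 → ℤ))
    (hZ : ∀ z ∈ Z, Adm B M z ∧ Sol {fun _ => 1} z) (𝒜 : Finset (Finset (Fin 4))) (i j : Fin 4)
    (hij : i ≠ j) (hi : {i} ∈ 𝒜) (h𝒜 : ∀ F ∈ 𝒜, i ∈ F) :
    (Z.card : ℝ) ≤ 2 * (16 * K ^ 2) * (K ^ 4 * ∏ F ∈ 𝒜ᶜ, M F) +
      Real.sqrt (2 * (K ^ 4 * ∏ F ∈ 𝒜ᶜ, M F) * (K ^ 4 * ∏ F ∈ 𝒜, M F) ^ 2 *
        (2 * K ^ 2 * M {j})) := by
  classical
  have hMZ : ∀ z ∈ Z, Adm B M z := fun z hz => (hZ z hz).1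
  have hK4 : 4 ≤ K := hK.four_le
  have hMj : 1 ≤ M {j} := hM.one_le _
  have hAc : ∀ c ∈ Z.image (co 𝒜), Adm B (Mr 𝒜ᶜ M) c := adm_image_co 𝒜 hM.one_le Z hMZ
  have hAp : ∀ y ∈ Z.image (part 𝒜), Adm B (Mr 𝒜 M) y ∧ ∀ i, 0 < y i :=
    adm_image_part 𝒜 hM.one_le Z hMZ
  have hsum0 : ∀ c y, solr 𝒜 Z c y → ∑ k, c k * y k = 0 := by
    intro c y h
    have h1 := ((sol_one _).1 (hZ _ (solr_mul h)).2).1
    simpa only [Pi.mul_apply] using h1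
  have h1 := card_le_sum 𝒜 Z
  have h2 := cauchy2 (Z.image (part 𝒜)) (Z.image (co 𝒜)) (solr 𝒜 Z)
    (fun y y' => ∃ k l, k ≠ l ∧ y k * y' l = y l * y' k) (16 * K ^ 2) (2 * K ^ 2 * M {j})
    (by positivity) (by positivity)
    (by
      intro c hc y hy hs
      have h3 := four_bad hB hK le_rfl hM i 𝒜 h𝒜 (c := c) (y := y) (hAc c hc).ne_zero (hAp y hy).1
        (hAp y hy).2 (hZ _ (solr_mul hs)).2 ((Z.image (part 𝒜)).filter fun y' =>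
          solr 𝒜 Z c y' ∧ ∃ k l, k ≠ l ∧ y k * y' l = y l * y' k)
        (by
          intro y' hy'
          rw [mem_filter] at hy'
          exact ⟨(hAp y' hy'.1).1, (hAp y' hy'.1).2, hsum0 c y' hy'.2.1, hy'.2.2⟩)
      convert h3)
    (by
      intro y hy y' hy' hb
      have hMi : Mr 𝒜ᶜ M {i} = 1 := by
        unfold Mr
        rw [if_neg]
        rw [mem_compl]
        exact fun h => h hi
      have hMj' : Mr 𝒜ᶜ M {j} = M {j} := by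
        unfold Mr
        rw [if_pos]
        rw [mem_compl]
        intro h
        exact hij (mem_singleton.1 (h𝒜 _ h))
      have h3 := four_good hB hK le_rfl (Bds.mr 𝒜ᶜ hM) y y'
        (fun k l hkl he => hb ⟨k, l, hkl, he⟩) i j hij hMi
        ((Z.image (co 𝒜)).filter fun c => solr 𝒜 Z c y ∧ solr 𝒜 Z c y')
        (by
          intro c hc
          rw [mem_filter] at hc
          exact ⟨hAc c hc.1, hsum0 c y hc.2.1, hsum0 c y' hc.2.2⟩)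
      rw [hMj'] at h3
      exact h3)
  have hC := card_image_co hB hK (by norm_num) hM.one_le 𝒜 Z hMZ
  have hY := card_image_part hB hK (by norm_num) hM.one_le 𝒜 Z hMZ
  refine h1.trans (h2.trans ?_)
  have hQ0 : 0 ≤ K ^ 4 * ∏ F ∈ 𝒜ᶜ, M F := le_trans (Nat.cast_nonneg _) hC
  have hR0 : 0 ≤ K ^ 4 * ∏ F ∈ 𝒜, M F := le_trans (Nat.cast_nonneg _) hY
  refine add_le_add (mul_le_mul_of_nonneg_left hC (by positivity)) (Real.sqrt_le_sqrt ?_)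
  refine mul_le_mul_of_nonneg_right ?_ (by positivity)
  refine mul_le_mul (mul_le_mul_of_nonneg_left hC (by norm_num)) ?_ (by positivity)
    (by linarith)
  exact pow_le_pow_left₀ (Nat.cast_nonneg _) hY 2

private theorem num_four {K σ Q R m : ℝ} (hK : 4 ≤ K) (hσ : 1 ≤ σ) (hQ : 0 ≤ Q) (hR : σ ≤ R)
    (hQR : R * Q = σ ^ 4) (hRm : R * m ≤ σ ^ 2) :
    2 * (16 * K ^ 2) * (K ^ 4 * Q) + Real.sqrt (2 * (K ^ 4 * Q) * (K ^ 4 * R) ^ 2 *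
        (2 * K ^ 2 * m)) ≤ K ^ 17 * σ ^ 3 := by
  have hσ0 : 0 < σ := by linarith
  have hK0 : 0 < K := by linarith
  have hQ3 : Q ≤ σ ^ 3 := by
    have h1 : σ * Q ≤ σ * σ ^ 3 := by
      calc σ * Q ≤ R * Q := mul_le_mul_of_nonneg_right hR hQ
        _ = σ * σ ^ 3 := by rw [hQR]; ring
    exact le_of_mul_le_mul_left h1 hσ0
  have hs : Real.sqrt (2 * (K ^ 4 * Q) * (K ^ 4 * R) ^ 2 * (2 * K ^ 2 * m)) ≤
      2 * K ^ 7 * σ ^ 3 := by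
    rw [Real.sqrt_le_left (by positivity)]
    calc 2 * (K ^ 4 * Q) * (K ^ 4 * R) ^ 2 * (2 * K ^ 2 * m)
        = (4 * K ^ 14) * ((R * Q) * (R * m)) := by ring
      _ ≤ (4 * K ^ 14) * (σ ^ 4 * σ ^ 2) := by
          refine mul_le_mul_of_nonneg_left ?_ (by positivity)
          rw [hQR]
          exact mul_le_mul_of_nonneg_left hRm (by positivity)
      _ = (2 * K ^ 7 * σ ^ 3) ^ 2 := by ring
  have h1 : 2 * (16 * K ^ 2) * (K ^ 4 * Q) ≤ 32 * K ^ 6 * σ ^ 3 := by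
    calc 2 * (16 * K ^ 2) * (K ^ 4 * Q) = 32 * K ^ 6 * Q := by ring
      _ ≤ 32 * K ^ 6 * σ ^ 3 := mul_le_mul_of_nonneg_left hQ3 (by positivity)
  have h2 : 32 * K ^ 6 + 2 * K ^ 7 ≤ K ^ 17 := by
    have h3 : 32 + 2 * K ≤ K ^ 11 := by
      have h4 : K ^ 3 ≤ K ^ 11 := pow_le_pow_right₀ (by linarith) (by norm_num)
      have h5 : 16 * K ≤ K ^ 3 := by
        have h6 : 16 ≤ K ^ 2 := by nlinarith
        calc 16 * K ≤ K ^ 2 * K := mul_le_mul_of_nonneg_right h6 hK0.le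
          _ = K ^ 3 := by ring
      linarith
    calc 32 * K ^ 6 + 2 * K ^ 7 = K ^ 6 * (32 + 2 * K) := by ring
      _ ≤ K ^ 6 * K ^ 11 := mul_le_mul_of_nonneg_left h3 (by positivity)
      _ = K ^ 17 := by ring
  calc 2 * (16 * K ^ 2) * (K ^ 4 * Q) + Real.sqrt (2 * (K ^ 4 * Q) * (K ^ 4 * R) ^ 2 *
        (2 * K ^ 2 * m)) ≤ 32 * K ^ 6 * σ ^ 3 + 2 * K ^ 7 * σ ^ 3 := add_le_add h1 hs
    _ = (32 * K ^ 6 + 2 * K ^ 7) * σ ^ 3 := by ring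
    _ ≤ K ^ 17 * σ ^ 3 := mul_le_mul_of_nonneg_right h2 (by positivity)

private theorem pow_up_four {K σ E : ℝ} (hK : 4 ≤ K) (hσ : 1 ≤ σ) {a : ℕ} (ha : a ≤ 17)
    (hE : E ≤ σ ^ 3) : K ^ a * E ≤ K ^ 17 * σ ^ 3 := by
  have hK0 : 0 < K := by linarith
  calc K ^ a * E ≤ K ^ a * σ ^ 3 := mul_le_mul_of_nonneg_left hE (by positivity)
    _ ≤ K ^ 17 * σ ^ 3 :=
        mul_le_mul_of_nonneg_right (pow_le_pow_right₀ (by linarith) ha) (by positivity)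

theorem four : ∃ c m : ℕ, ∀ (B : ℕ) (K : ℝ), 1 ≤ B → Big 4 B m K →
    ∀ M : Finset (Fin 4) → ℝ, Bds M → ∀ Z : Finset (Fin 4 → ℤ),
      (∀ z ∈ Z, Adm B M z ∧ Sol {fun _ => 1} z) →
      (Z.card : ℝ) ≤ K ^ c * (∏ F, M F) ^ (1 - 1 / (4 : ℝ)) := by
  classical
  refine ⟨17, 40, fun B K hB hK M hM Z hZ => ?_⟩
  have hMZ : ∀ z ∈ Z, Adm B M z := fun z hz => (hZ z hz).1
  have hK4 : 4 ≤ K := hK.four_le
  have hone : ∀ s : Finset (Finset (Fin 4)), 1 ≤ ∏ F ∈ s, M F := by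
    intro s
    calc (1 : ℝ) = ∏ F ∈ s, (1 : ℝ) := by simp
      _ ≤ ∏ F ∈ s, M F :=
          Finset.prod_le_prod (fun _ _ => zero_le_one) (fun F _ => hM.one_le F)
  have hP1 : 1 ≤ ∏ F, M F := hone univ
  obtain ⟨P, hP⟩ : ∃ P, P = ∏ F, M F := ⟨_, rfl⟩
  rw [← hP] at hP1 ⊢
  obtain ⟨σ, hσ⟩ : ∃ σ : ℝ, σ = P ^ (1 / (4 : ℝ)) := ⟨_, rfl⟩
  have hP0 : 0 ≤ P := by linarith
  have hσ1 : 1 ≤ σ := by
    rw [hσ]
    exact Real.one_le_rpow hP1 (by norm_num)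
  have hσ4 : P = σ ^ 4 := by
    rw [hσ, ← Real.rpow_natCast, ← Real.rpow_mul hP0]
    norm_num
  have hσ3 : P ^ (1 - 1 / (4 : ℝ)) = σ ^ 3 := by
    rw [hσ, ← Real.rpow_natCast, ← Real.rpow_mul hP0]
    congr 1
    norm_num
  rw [hσ3]
  have hσ0 : 0 < σ := by linarith
  by_cases h1 : σ ≤ 1
  · have h2 : σ = 1 := le_antisymm h1 hσ1
    have h3 := card_adm hB hK (by norm_num) hM.one_le Z hMZ
    rw [← hP, hσ4] at h3
    refine h3.trans (pow_up_four hK4 hσ1 (by norm_num) ?_)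
    rw [h2]
    norm_num
  have hσ' : 1 < σ := lt_of_not_ge h1
  by_cases h2 : ∃ F, σ ≤ M F
  · obtain ⟨F, hF⟩ := h2
    have hFu : F ≠ univ := by
      intro h
      rw [h, hM.univ_eq] at hF
      linarith
    have h3 := fibre hB hK (k := 0) (by norm_num) (ent_one_four B) hM.one_le F hFu Z hZ
    refine h3.trans (pow_up_four hK4 hσ1 (by norm_num) ?_)
    have h4 := Finset.mul_prod_erase univ M (mem_univ F)
    rw [← hP, hσ4] at h4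
    have h5 := hone (univ.erase F)
    have h6 : σ * ∏ G ∈ univ.erase F, M G ≤ σ * σ ^ 3 := by
      calc σ * ∏ G ∈ univ.erase F, M G ≤ M F * ∏ G ∈ univ.erase F, M G :=
            mul_le_mul_of_nonneg_right hF (by linarith)
        _ = σ * σ ^ 3 := by rw [h4]; ring
    exact le_of_mul_le_mul_left h6 hσ0
  have hMσ : ∀ F, M F < σ := fun F => lt_of_not_ge fun h => h2 ⟨F, h⟩
  by_cases h3 : ∃ F G : Finset (Fin 4), F.Nonempty ∧ F ⊂ G ∧ G ≠ univ ∧ σ ≤ M F * M G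
  · obtain ⟨F, G, hF, hFG, hG, hle⟩ := h3
    have h3 := fibre2 hB hK (k := 0) (by norm_num) (ent_one_four B) hM.one_le F G hF hFG hG Z hZ
    refine h3.trans (pow_up_four hK4 hσ1 (by norm_num) ?_)
    have h4 := Finset.mul_prod_erase univ M (mem_univ F)
    have h4' := Finset.mul_prod_erase (univ.erase F) M
      (mem_erase.2 ⟨hFG.ne', mem_univ G⟩)
    rw [← hP, hσ4, ← h4'] at h4
    have h5 := hone ((univ.erase F).erase G)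
    have h6 : σ * ∏ H ∈ (univ.erase F).erase G, M H ≤ σ * σ ^ 3 := by
      calc σ * ∏ H ∈ (univ.erase F).erase G, M H ≤
            (M F * M G) * ∏ H ∈ (univ.erase F).erase G, M H :=
            mul_le_mul_of_nonneg_right hle (by linarith)
        _ = σ * σ ^ 3 := by rw [mul_assoc, h4]; ring
    exact le_of_mul_le_mul_left h6 hσ0
  have hch : ∀ F G : Finset (Fin 4), F.Nonempty → F ⊂ G → G ≠ univ → M F * M G < σ :=
    fun F G hF hFG hG => lt_of_not_ge fun h => h3 ⟨F, G, hF, hFG, hG, h⟩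
  by_cases h4 : ∀ i, ∏ F ∈ univ.filter (fun F => i ∈ F), M F ≤ σ
  · have h5 := four_low hB hK (by norm_num) hM.one_le σ hσ1 h4 Z
      (fun z hz => ⟨(hZ z hz).1, ((sol_one z).1 (hZ z hz).2).1⟩)
    exact h5.trans (pow_up_four hK4 hσ1 (by norm_num) le_rfl)
  push Not at h4
  obtain ⟨i, hi⟩ := h4
  obtain ⟨𝒜, j, hij, hi𝒜, h𝒜, hR, hRm⟩ := four_choose (by norm_num) hM σ hσ' hMσ hch i hi.le
  have h5 := case4_four hB hK hM Z hZ 𝒜 i j hij hi𝒜 h𝒜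
  refine h5.trans (num_four hK4 hσ1 ?_ hR ?_ hRm.le)
  · exact le_trans zero_le_one (hone _)
  · rw [Finset.prod_mul_prod_compl, ← hP, hσ4]

theorem cnt_four : Cnt 4 4 := by
  intro δ hδ
  obtain ⟨c, m, h⟩ := four
  obtain ⟨A₀, hA₀, hbig⟩ := exists_big 4 m (δ / (c + 1)) (by positivity)
  refine ⟨A₀ ^ c, fun B hB M hM Z hZ => ?_⟩
  refine (h B _ hB (hbig B hB) M hM Z hZ).trans ?_
  have hP : 0 ≤ (∏ F, M F) ^ (1 - 1 / (4 : ℝ)) :=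
    Real.rpow_nonneg (Finset.prod_nonneg fun F _ => le_trans zero_le_one (hM.one_le F)) _
  refine mul_le_mul_of_nonneg_right ?_ hP
  rw [mul_pow]
  refine mul_le_mul_of_nonneg_left ?_ (by positivity)
  rw [← Real.rpow_natCast, ← Real.rpow_mul (Nat.cast_nonneg _)]
  refine Real.rpow_le_rpow_of_exponent_le (by exact_mod_cast hB) ?_
  rw [div_mul_eq_mul_div, div_le_iff₀ (by positivity)]
  nlinarith

end Pool.Agent.PSV
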