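import Pool.Agent.PSV.Choose
import Pool.Agent.PSV.Defs

/-!
# n = 4: the choice of the star family

PROOF (any `n ≥ 2`). `P = {i}`. `M P < σ`, so `x := σ / M P > 1`, and `∏_(F ∈ s) M F ≥ x` for
`s = {F | i ∈ F, F ≠ P}` (`Finset.mul_prod_erase`). So some `F ∈ s` has `M F > 1` (otherwise the product is
1), `F ≠ P` contains some `l ≠ i`. Let `j` minimise `M {j}` among the `j ≠ i`
(`Finset.exists_min_image`). `{l} ⊂ F` (`i ∈ F`, `i ≠ l`), `F ≠ univ` (`M univ = 1`), so
`M {j} ≤ M {l}` and `M {l} * M F < σ`; in particular `M {j} < σ`. Put `σ' = σ / M {j} > 1`. Every `F ∈ s`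
has `M F < σ'`: if `M F = 1`, since `σ' > 1`; if `M F > 1`: as above `M {j} * M F ≤ M {l} * M F < σ` with
`l ∈ F`, `l ≠ i`. `exists_sub_prod s M x σ'`: `t ⊆ s` with `x ≤ ∏_t M < x σ'`. Take `𝒜 = insert P t`
(`P ∉ s`): `∏_𝒜 M = M P * ∏_t M ≥ M P x = σ`, and `< M P x σ' = σ σ'`, so `∏_𝒜 M * M {j} < σ^2`.
-/

namespace Pool.Agent.PSV

open Finset

variable {n : ℕ} {M : Finset (Fin n) → ℝ}

theorem four_choose (hn : 2 ≤ n) (hM : Bds M) (σ : ℝ) (hσ : 1 < σ) (hMσ : ∀ F, M F < σ)
    (hch : ∀ F G : Finset (Fin n), F.Nonempty → F ⊂ G → G ≠ univ → M F * M G < σ) (i : Fin n)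
    (hi : σ ≤ ∏ F ∈ univ.filter (fun F => i ∈ F), M F) :
    ∃ (𝒜 : Finset (Finset (Fin n))) (j : Fin n), i ≠ j ∧ {i} ∈ 𝒜 ∧ (∀ F ∈ 𝒜, i ∈ F) ∧
      σ ≤ ∏ F ∈ 𝒜, M F ∧ (∏ F ∈ 𝒜, M F) * M {j} < σ ^ 2 := by
  have hpos : ∀ F, 0 < M F := fun F => lt_of_lt_of_le one_pos (hM.one_le F)
  -- the set of the `j ≠ i`
  have hne : (univ.erase i : Finset (Fin n)).Nonempty := by
    rw [← Finset.card_pos, card_erase_of_mem (mem_univ i), card_univ, Fintype.card_fin]
    omega
  obtain ⟨j, hj, hjmin⟩ := Finset.exists_min_image (univ.erase i) (fun j => M {j}) hne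
  have hij : i ≠ j := by
    intro h
    rw [← h] at hj
    exact (notMem_erase i univ) hj
  set S : Finset (Finset (Fin n)) := univ.filter (fun F => i ∈ F) with hS
  set s : Finset (Finset (Fin n)) := S.erase {i} with hs
  have hP : ({i} : Finset (Fin n)) ∈ S := by simp [hS]
  have hprod : M {i} * ∏ F ∈ s, M F = ∏ F ∈ S, M F := mul_prod_erase S M hP
  have hx1 : 1 < σ / M {i} := by
    rw [lt_div_iff₀ (hpos _), one_mul]
    exact hMσ _
  have hxs : σ / M {i} ≤ ∏ F ∈ s, M F := by
    rw [div_le_iff₀ (hpos _), mul_comm, hprod]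
    exact hi
  -- every `F ∈ s` with `1 < M F` satisfies `M {j} * M F < σ`
  have key : ∀ F ∈ s, 1 < M F → M {j} * M F < σ := by
    intro F hF h1
    have hF' := mem_erase.1 hF
    have hiF : i ∈ F := by
      have := hF'.2
      simp only [hS, mem_filter, mem_univ, true_and] at this
      exact this
    obtain ⟨l, hlF, hli⟩ : ∃ l ∈ F, l ≠ i := by
      by_contra hcon
      push Not at hcon
      apply hF'.1
      ext a
      simp only [mem_singleton]
      constructor
      · exact fun ha => hcon a ha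
      · intro ha
        rw [ha]
        exact hiF
    have hFu : F ≠ univ := by
      intro h
      rw [h, hM.univ_eq] at h1
      exact lt_irrefl _ h1
    have hlt : ({l} : Finset (Fin n)) ⊂ F := by
      rw [Finset.ssubset_iff_subset_ne]
      refine ⟨singleton_subset_iff.2 hlF, ?_⟩
      intro h
      rw [← h, mem_singleton] at hiF
      exact hli hiF.symm
    have h2 := hch {l} F (singleton_nonempty l) hlt hFu
    have h3 := hjmin l (mem_erase.2 ⟨hli, mem_univ l⟩)
    calc M {j} * M F ≤ M {l} * M F := mul_le_mul_of_nonneg_right h3 (hpos F).le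
      _ < σ := h2
  -- some `F ∈ s` has `1 < M F`
  obtain ⟨F0, hF0, hF01⟩ : ∃ F ∈ s, 1 < M F := by
    by_contra hcon
    push Not at hcon
    have h1 : ∏ F ∈ s, M F ≤ 1 := by
      calc ∏ F ∈ s, M F ≤ ∏ _F ∈ s, (1 : ℝ) :=
            prod_le_prod (fun F _ => (hpos F).le) (fun F hF => hcon F hF)
        _ = 1 := by simp
    linarith
  have hjσ : M {j} < σ := by
    have h1 := key F0 hF0 hF01
    have h2 : M {j} * 1 ≤ M {j} * M F0 := mul_le_mul_of_nonneg_left hF01.le (hpos _).le
    linarith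
  have hσ' : 1 < σ / M {j} := by
    rw [lt_div_iff₀ (hpos _), one_mul]
    exact hjσ
  have hall : ∀ F ∈ s, M F < σ / M {j} := by
    intro F hF
    rcases (hM.one_le F).lt_or_eq with h | h
    · rw [lt_div_iff₀ (hpos _), mul_comm]
      exact key F hF h
    · rw [← h]
      exact hσ'
  obtain ⟨t, hts, ht1, ht2⟩ := exists_sub_prod s M (σ / M {i}) (σ / M {j}) hx1.le hσ'
    (fun F _ => hM.one_le F) hall hxs
  have hPt : ({i} : Finset (Fin n)) ∉ t := fun h => (notMem_erase {i} S) (hts h)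
  refine ⟨insert {i} t, j, hij, mem_insert_self _ _, ?_, ?_, ?_⟩
  · intro F hF
    rcases mem_insert.1 hF with h | h
    · rw [h]
      exact mem_singleton_self i
    · have := (mem_erase.1 (hts h)).2
      simp only [hS, mem_filter, mem_univ, true_and] at this
      exact this
  · rw [prod_insert hPt]
    rw [div_le_iff₀ (hpos _)] at ht1
    linarith
  · rw [prod_insert hPt]
    have h1 : M {i} * ∏ F ∈ t, M F < σ * (σ / M {j}) := by
      have h2 := mul_lt_mul_of_pos_left ht2 (hpos {i})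
      have h3 : M {i} * (σ / M {i} * (σ / M {j})) = σ * (σ / M {j}) := by
        have := (hpos {i}).ne'
        field_simp
      linarith
    have h2 := mul_lt_mul_of_pos_right h1 (hpos {j})
    have h3 : σ * (σ / M {j}) * M {j} = σ ^ 2 := by
      have := (hpos {j}).ne'
      field_simp
    linarith

end Pool.Agent.PSV
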