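import Pool.Agent.PSV.Defs

/-!
# The parts of a vector: divisibility

Notation of `Defs`: `part 𝒜 z i` = product of `p ^ v_p(z i)` over the primes `p ∣ z i` with
`pat z p ∈ 𝒜`; `co 𝒜 z i = z i / part 𝒜 z i`.

PROOFS. `part_pos`: product of powers of primes. `part_dvd`: the product over a subset of the prime
factors divides `∏ p ∈ primeFactors, p ^ factorization p = |z i|` (`Nat.factorization_prod_pow_eq_self`,
`Finset.prod_dvd_prod_of_subset`). `part_mul_co`: `Int.mul_ediv_cancel'`.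
`dvd_part_iff`: a prime dividing the product divides (so equals) one of the primes of the product
(`Prime.dvd_finset_prod_iff`, `Nat.prime_dvd_prime_iff_eq`); conversely `p ∣ z i` gives `p` in
`primeFactors` and exponent `≥ 1`. `dvd_co_iff`: `z i = part * co`. If `p ∣ z i`, `pat z p ∉ 𝒜`:
`p ∤ part`, so `p ∣ co`. If `p ∣ co i` then `p ∣ z i`; if moreover `pat z p ∈ 𝒜` then
`v_p(part) = v_p(z i)`, so `v_p(co i) = 0`: contradiction (with `e = factorization p`: `p ^ e ∣ part`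
and `p ∣ co` give `p^(e+1) ∣ z i`, contradiction to `Nat.pow_succ_factorization_not_dvd`).
`part_eq_one`: the index set is empty: `p ∣ z i` gives `i ∈ pat z p ∈ 𝒜`.
`part_union`: `Finset.prod_union` for disjoint index sets (`filter_or`).
-/

namespace Pool.Agent.PSV

open Finset

variable {n : ℕ}

theorem mem_pat (z : Fin n → ℤ) (p : ℕ) (i : Fin n) : i ∈ pat z p ↔ (p : ℤ) ∣ z i := by
  simp [pat]

private def npart (𝒜 : Finset (Finset (Fin n))) (z : Fin n → ℤ) (i : Fin n) : ℕ :=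
  ∏ p ∈ (z i).natAbs.primeFactors.filter (fun p => pat z p ∈ 𝒜),
    p ^ (z i).natAbs.factorization p

private theorem part_eq_npart (𝒜 : Finset (Finset (Fin n))) (z : Fin n → ℤ) (i : Fin n) :
    part 𝒜 z i = ((npart 𝒜 z i : ℕ) : ℤ) := by
  unfold part npart
  push_cast
  rfl

private theorem npart_pos (𝒜 : Finset (Finset (Fin n))) (z : Fin n → ℤ) (i : Fin n) :
    0 < npart 𝒜 z i := by
  unfold npart
  apply Finset.prod_pos
  intro p hp
  exact pow_pos (Nat.prime_of_mem_primeFactors (mem_filter.1 hp).1).pos _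

private theorem npart_dvd (𝒜 : Finset (Finset (Fin n))) (z : Fin n → ℤ) (i : Fin n) :
    npart 𝒜 z i ∣ (z i).natAbs := by
  rcases eq_or_ne (z i).natAbs 0 with h | h
  · rw [h]; exact dvd_zero _
  · have h1 := Finset.prod_dvd_prod_of_subset _ _
      (fun p => p ^ (z i).natAbs.factorization p)
      (Finset.filter_subset (fun p => pat z p ∈ 𝒜) (z i).natAbs.primeFactors)
    rw [← Nat.prod_primeFactors_pow_factorization h] at h1
    exact h1

theorem part_pos (𝒜 : Finset (Finset (Fin n))) (z : Fin n → ℤ) (i : Fin n) : 0 < part 𝒜 z i := by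
  rw [part_eq_npart]
  exact_mod_cast npart_pos 𝒜 z i

theorem part_dvd (𝒜 : Finset (Finset (Fin n))) (z : Fin n → ℤ) (i : Fin n) : part 𝒜 z i ∣ z i := by
  rw [part_eq_npart]
  exact Int.natCast_dvd.2 (npart_dvd 𝒜 z i)

theorem part_mul_co (𝒜 : Finset (Finset (Fin n))) (z : Fin n → ℤ) : part 𝒜 z * co 𝒜 z = z := by
  funext i
  exact Int.mul_ediv_cancel' (part_dvd 𝒜 z i)

theorem co_ne_zero (𝒜 : Finset (Finset (Fin n))) {z : Fin n → ℤ} {i : Fin n} (hz : z i ≠ 0) :
    co 𝒜 z i ≠ 0 := by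
  intro h
  apply hz
  have h1 := congrFun (part_mul_co 𝒜 z) i
  rw [Pi.mul_apply, h, mul_zero] at h1
  exact h1.symm

private theorem mem_pf {z : Fin n → ℤ} {i : Fin n} (hz : z i ≠ 0) {p : ℕ} (hp : p.Prime) :
    p ∈ (z i).natAbs.primeFactors ↔ (p : ℤ) ∣ z i := by
  rw [Nat.mem_primeFactors, Int.natCast_dvd]
  constructor
  · intro h; exact h.2.1
  · intro h; exact ⟨hp, h, Int.natAbs_ne_zero.2 hz⟩

theorem dvd_part_iff (𝒜 : Finset (Finset (Fin n))) {z : Fin n → ℤ} {i : Fin n} (hz : z i ≠ 0)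
    {p : ℕ} (hp : p.Prime) : (p : ℤ) ∣ part 𝒜 z i ↔ (p : ℤ) ∣ z i ∧ pat z p ∈ 𝒜 := by
  rw [part_eq_npart, Int.natCast_dvd_natCast]
  constructor
  · intro h
    unfold npart at h
    obtain ⟨q, hq, hpq⟩ := (hp.prime.dvd_finsetProd_iff _).1 h
    rw [mem_filter] at hq
    have hqp := Nat.prime_of_mem_primeFactors hq.1
    have h1 : p ∣ q := hp.dvd_of_dvd_pow hpq
    have h2 : p = q := (Nat.prime_dvd_prime_iff_eq hp hqp).1 h1
    subst h2
    exact ⟨(mem_pf hz hp).1 hq.1, hq.2⟩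
  · rintro ⟨h1, h2⟩
    have h3 := (mem_pf hz hp).2 h1
    have h4 : p ∣ p ^ (z i).natAbs.factorization p := by
      apply dvd_pow_self
      have := (hp.factorization_pos_of_dvd (Int.natAbs_ne_zero.2 hz)
        (Nat.dvd_of_mem_primeFactors h3))
      omega
    refine h4.trans ?_
    unfold npart
    exact Finset.dvd_prod_of_mem (fun q => q ^ (z i).natAbs.factorization q)
      (mem_filter.2 ⟨h3, h2⟩)

theorem dvd_co_iff (𝒜 : Finset (Finset (Fin n))) {z : Fin n → ℤ} {i : Fin n} (hz : z i ≠ 0)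
    {p : ℕ} (hp : p.Prime) : (p : ℤ) ∣ co 𝒜 z i ↔ (p : ℤ) ∣ z i ∧ pat z p ∉ 𝒜 := by
  have h1 := congrFun (part_mul_co 𝒜 z) i
  rw [Pi.mul_apply] at h1
  have hpz : _root_.Prime (p : ℤ) := Nat.prime_iff_prime_int.1 hp
  constructor
  · intro h
    have h2 : (p : ℤ) ∣ z i := by
      rw [← h1]; exact h.mul_left _
    refine ⟨h2, ?_⟩
    intro hmem
    have h3 := (mem_pf hz hp).2 h2
    have h4 : p ^ (z i).natAbs.factorization p ∣ npart 𝒜 z i := by
      unfold npart
      exact Finset.dvd_prod_of_mem (fun q => q ^ (z i).natAbs.factorization q)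
        (mem_filter.2 ⟨h3, hmem⟩)
    have h5 : ((p ^ (z i).natAbs.factorization p : ℕ) : ℤ) ∣ part 𝒜 z i := by
      rw [part_eq_npart]
      exact Int.natCast_dvd_natCast.2 h4
    have h6 : ((p ^ ((z i).natAbs.factorization p + 1) : ℕ) : ℤ) ∣ z i := by
      have h7 := mul_dvd_mul h5 h
      rw [h1] at h7
      rw [pow_succ]
      push_cast
      push_cast at h7
      exact h7
    exact Nat.pow_succ_factorization_not_dvd (Int.natAbs_ne_zero.2 hz) hp (Int.natCast_dvd.1 h6)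
  · rintro ⟨h2, h3⟩
    rw [← h1] at h2
    rcases hpz.dvd_or_dvd h2 with h4 | h4
    · exact absurd ((dvd_part_iff 𝒜 hz hp).1 h4).2 h3
    · exact h4

theorem part_eq_one (𝒜 : Finset (Finset (Fin n))) (z : Fin n → ℤ) (i : Fin n)
    (h : ∀ F ∈ 𝒜, i ∉ F) : part 𝒜 z i = 1 := by
  unfold part
  rw [Finset.filter_eq_empty_iff.2, Finset.prod_empty]
  intro p hp hmem
  apply h _ hmem
  rw [mem_pat]
  exact Int.natCast_dvd.2 (Nat.dvd_of_mem_primeFactors hp)

theorem part_union (𝒜 ℬ : Finset (Finset (Fin n))) (h : Disjoint 𝒜 ℬ) (z : Fin n → ℤ) :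
    part (𝒜 ∪ ℬ) z = part 𝒜 z * part ℬ z := by
  funext i
  rw [Pi.mul_apply]
  unfold part
  rw [← Finset.prod_union]
  · congr 1
    rw [← Finset.filter_or]
    apply Finset.filter_congr
    intro p _
    rw [mem_union]
  · rw [Finset.disjoint_filter]
    intro p _ h1 h2
    exact (Finset.disjoint_left.1 h) h1 h2

end Pool.Agent.PSV
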