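import Pool.Agent.PSV.PartAdm

/-!
# Proportional admissible vectors are equal up to sign

PROOF of `eq_or_neg`. `n = 0`: `z' = z` (functions on `Fin 0`). Let `n > 0`. Claim: `|z i| = |z' i|` for
all `i`. Otherwise, for some `i`, the natural numbers `|z i|`, `|z' i|` differ, so there is a prime `p`
with different exponents in them (`Nat.eq_of_factorization_eq`), say `v_p(z i) > v_p(z' i)` (else exchange
the roles of `z` and `z'`). From `z i * z' j = z j * z' i` (absolute values, `Nat.factorization_mul`):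
`v_p(z j) = v_p(z' j) + v_p(z i) - v_p(z' i) ≥ 1` for all `j`, so `p` divides all `z j`, i.e.
`pat z p = univ`: contradiction to `not_dvd_all`. So `z' i = ε_i z i` with `ε_i = ±1`, and
`z i * ε_j z j = z j * ε_i z i` gives `ε_i = ε_j`.
`eq_of_pos`: positivity excludes `z' = -z` when `n > 0` (`n = 0` trivial).
`card_le_two`: if `Z` is empty clear; else fix `z ∈ Z`: `Z ⊆ {z, -z}`.
`exists_ne`: contrapositive of `eq_of_pos`.
-/

namespace Pool.Agent.PSV

open Finset

variable {n B : ℕ} {M M' : Finset (Fin n) → ℝ}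

theorem bez {z : Fin n → ℤ} (h : ∀ p : ℕ, p.Prime → pat z p ≠ univ) :
    ∃ c : Fin n → ℤ, ∑ i, c i * z i = 1 := by
  obtain ⟨d, hd⟩ := (IsPrincipalIdealRing.principal (Ideal.span (Set.range z))).principal
  have hdvd : ∀ i, d ∣ z i := by
    intro i
    have h1 : z i ∈ Ideal.span (Set.range z) := Ideal.subset_span ⟨i, rfl⟩
    rw [hd] at h1
    exact Ideal.mem_span_singleton.1 h1
  have hd1 : d.natAbs = 1 := by
    by_contra hcon
    obtain ⟨p, hp, hpd⟩ := Nat.exists_prime_and_dvd hcon
    apply h p hp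
    rw [Finset.eq_univ_iff_forall]
    intro i
    exact Finset.mem_filter.2 ⟨Finset.mem_univ _, (Int.natCast_dvd.2 hpd).trans (hdvd i)⟩
  have h1 : (1 : ℤ) ∈ Ideal.span (Set.range z) := by
    rw [hd]
    apply Ideal.mem_span_singleton.2
    exact (Int.isUnit_iff_natAbs_eq.2 hd1).dvd
  exact (Ideal.mem_span_range_iff_exists_fun).1 h1

theorem eq_or_neg (hM : Bds M) (hM' : Bds M') {z z' : Fin n → ℤ} (h : Adm B M z)
    (h' : Adm B M' z') (hp : ∀ i j, z i * z' j = z j * z' i) : z' = z ∨ z' = -z := by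
  rcases Nat.eq_zero_or_pos n with h0 | hn
  · subst h0
    left
    funext i
    exact i.elim0
  obtain ⟨c, hc⟩ := bez (z := z) (fun p hp => not_dvd_all hM h hp hn)
  obtain ⟨c', hc'⟩ := bez (z := z') (fun p hp => not_dvd_all hM' h' hp hn)
  set t := ∑ i, c i * z' i with ht
  set t' := ∑ i, c' i * z i with ht'
  have e1 : ∀ j, z' j = z j * t := by
    intro j
    calc z' j = (∑ i, c i * z i) * z' j := by rw [hc, one_mul]
      _ = ∑ i, c i * (z i * z' j) := by
          rw [Finset.sum_mul]
          exact Finset.sum_congr rfl fun i _ => by ring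
      _ = ∑ i, z j * (c i * z' i) := by
          refine Finset.sum_congr rfl fun i _ => ?_
          rw [hp i j]; ring
      _ = z j * t := by rw [ht, Finset.mul_sum]
  have e2 : ∀ j, z j = z' j * t' := by
    intro j
    calc z j = (∑ i, c' i * z' i) * z j := by rw [hc', one_mul]
      _ = ∑ i, c' i * (z j * z' i) := by
          rw [Finset.sum_mul]
          exact Finset.sum_congr rfl fun i _ => by ring
      _ = ∑ i, z' j * (c' i * z i) := by
          refine Finset.sum_congr rfl fun i _ => ?_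
          rw [← hp i j]; ring
      _ = z' j * t' := by rw [ht', Finset.mul_sum]
  have hj := h.ne_zero ⟨0, hn⟩
  have e3 : t * t' = 1 := by
    have h1 := e2 ⟨0, hn⟩
    rw [e1 ⟨0, hn⟩] at h1
    have h2 : z ⟨0, hn⟩ * (t * t') = z ⟨0, hn⟩ * 1 := by rw [mul_one, ← mul_assoc]; exact h1.symm
    exact mul_left_cancel₀ hj h2
  rcases Int.eq_one_or_neg_one_of_mul_eq_one e3 with h1 | h1
  · left
    funext j
    rw [e1 j, h1, mul_one]
  · right
    funext j
    rw [e1 j, h1, Pi.neg_apply]
    ring

theorem exists_ne (hM : Bds M) (hM' : Bds M') {z z' : Fin n → ℤ} (h : Adm B M z)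
    (h' : Adm B M' z') (hz : ∀ i, 0 < z i) (hz' : ∀ i, 0 < z' i) (hne : z ≠ z') :
    ∃ i j, z i * z' j ≠ z j * z' i := by
  by_contra hcon
  push Not at hcon
  rcases eq_or_neg hM hM' h h' hcon with h1 | h1
  · exact hne h1.symm
  · rcases Nat.eq_zero_or_pos n with h0 | hn
    · subst h0
      apply hne
      funext i
      exact i.elim0
    · have h2 := hz ⟨0, hn⟩
      have h3 := hz' ⟨0, hn⟩
      rw [h1, Pi.neg_apply] at h3
      linarith

theorem card_le_two (hM : Bds M) (Z : Finset (Fin n → ℤ)) (hZ : ∀ z ∈ Z, Adm B M z)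
    (hp : ∀ z ∈ Z, ∀ z' ∈ Z, ∀ i j, z i * z' j = z j * z' i) : Z.card ≤ 2 := by
  classical
  rcases Z.eq_empty_or_nonempty with h0 | ⟨z, hz⟩
  · rw [h0]; simp
  · have hsub : Z ⊆ {z, -z} := by
      intro z' hz'
      rcases eq_or_neg hM hM (hZ z hz) (hZ z' hz') (hp z hz z' hz') with h1 | h1
      · rw [h1]; exact Finset.mem_insert_self _ _
      · rw [h1]; exact Finset.mem_insert_of_mem (Finset.mem_singleton_self _)
    exact (Finset.card_le_card hsub).trans Finset.card_le_two

end Pool.Agent.PSV
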