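import Pool.Agent.PSV.Defs

/-!
# At least three classes

STATEMENT. `c * a` a nondegenerate solution of `L`, `c * b` a solution, `a, b` not proportional. Then
`b / a` has at least three different values.

PROOF. Suppose that every `k` has `a i * b k = a k * b i` (k in the class `I` of `i`) or
`a j * b k = a k * b j`. Let `I = cls a b i`; `i ∈ I`, `j ∉ I` (`hij`). By nondegeneracy of `c * a` there is
`l ∈ L` with `S := ∑ k ∈ I, l k * (c k * a k) ≠ 0`. Let `T := ∑ k ∉ I, l k * (c k * a k)`: `S + T = 0`.
Multiply the equation of `c * b` by `a i * a j`: for `k ∈ I`, `a i * b k = a k * b i`; for `k ∉ I`,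
`a j * b k = a k * b j`; so `0 = a i a j ∑ l k c k b k = a j b i S + a i b j T = (a j b i - a i b j) S`,
contradiction to `hij` and `S ≠ 0`.
-/

namespace Pool.Agent.PSV

open Finset

variable {n : ℕ}

theorem three {L : Set (Fin n → ℤ)} {c a b : Fin n → ℤ} (hs : Sol L (c * a)) (hb : Zer L (c * b))
    (ha : ∀ i, a i ≠ 0) (i j : Fin n) (hij : a i * b j ≠ a j * b i) :
    ∃ k, a i * b k ≠ a k * b i ∧ a j * b k ≠ a k * b j := by
  classical
  by_contra hcon
  push Not at hcon
  have hall : ∀ k, a i * b k = a k * b i ∨ a j * b k = a k * b j := by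
    intro k
    by_cases h : a i * b k = a k * b i
    · exact Or.inl h
    · exact Or.inr (hcon k h)
  let I : Finset (Fin n) := univ.filter fun k => a i * b k = a k * b i
  have hiI : i ∈ I := Finset.mem_filter.2 ⟨Finset.mem_univ _, rfl⟩
  have hjI : j ∉ I := fun h => hij (Finset.mem_filter.1 h).2
  have hIu : I ≠ univ := fun h => hjI (h ▸ Finset.mem_univ j)
  obtain ⟨l, hl, hS⟩ := hs.nondeg I ⟨i, hiI⟩ hIu
  have hf := hs.zer l hl
  have hg := hb l hl
  simp only [Pi.mul_apply] at hS hf hg
  rw [← Finset.sum_add_sum_compl I] at hf hg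
  have h1 : a i * ∑ k ∈ I, l k * (c k * b k) = b i * ∑ k ∈ I, l k * (c k * a k) := by
    rw [Finset.mul_sum, Finset.mul_sum]
    refine Finset.sum_congr rfl fun k hk => ?_
    have := (Finset.mem_filter.1 hk).2
    linear_combination (l k * c k) * this
  have h2 : a j * ∑ k ∈ Iᶜ, l k * (c k * b k) = b j * ∑ k ∈ Iᶜ, l k * (c k * a k) := by
    rw [Finset.mul_sum, Finset.mul_sum]
    refine Finset.sum_congr rfl fun k hk => ?_
    have hk' : k ∉ I := Finset.mem_compl.1 hk
    have : a j * b k = a k * b j := by
      rcases hall k with h | h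
      · have hkI : k ∈ I := Finset.mem_filter.2 ⟨Finset.mem_univ k, h⟩
        exact absurd hkI hk'
      · exact h
    linear_combination (l k * c k) * this
  have h3 : (a j * b i - a i * b j) * ∑ k ∈ I, l k * (c k * a k) = 0 := by
    linear_combination (a i * a j) * hg - a j * h1 - a i * h2 - (a i * b j) * hf
  rcases mul_eq_zero.1 h3 with h | h
  · exact hij (by linarith)
  · exact hS h

end Pool.Agent.PSV
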