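import Pool.Agent.PSV.Rank1
import Pool.Agent.PSV.Plane
import Pool.Agent.PSV.Three

/-!
# The plane of two points of a fibre contains few points of a star family

STATEMENT. All types in `𝒜` contain `i₀`; `y ≠ y'` positive admissible vectors with types in `𝒜`, `c * y`
a nondegenerate solution, `c * y'` a solution. Then the plane of `y, y'` contains at most `K^2` vectors
of a set of admissible vectors with types in `𝒜`.

PROOF. `exists_ne`: `y i * y' j ≠ y j * y' i` for some `i, j`. `three` (with `a = y`, `b = y'`) gives `k`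
in a third class. So there are three coordinates in three different classes of `y' / y`; at most one of
the classes contains `i₀`, so two of the three coordinates, `i'` and `j'`, have `i₀ ∉ cls y y' i'`,
`i₀ ∉ cls y y' j'` and `y i' * y' j' ≠ y j' * y' i'`. These classes are not in `𝒜`, so `Mr 𝒜 M` is 1 at
them, and `card_plane` gives `K^2 * (1 * 1)`. (If `i₀` is in the class of `r` and of `s` then `r, s` are
in the same class: `y r * y' i₀ = y i₀ * y' r`, `y s * y' i₀ = y i₀ * y' s` and `y i₀, y' i₀ ≠ 0` give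
`y r * y' s = y s * y' r`.)
-/

namespace Pool.Agent.PSV

open Finset

variable {n B m : ℕ} {K : ℝ} {M : Finset (Fin n) → ℝ}

theorem star_plane (hB : 1 ≤ B) (hK : Big n B m K) (hm : 2 * n ^ 2 + 2 * n ≤ m) (hM : Bds M)
    (i₀ : Fin n) (𝒜 : Finset (Finset (Fin n))) (h𝒜 : ∀ F ∈ 𝒜, i₀ ∈ F) {L : Set (Fin n → ℤ)}
    {c y y' : Fin n → ℤ} (hy : Adm B (Mr 𝒜 M) y) (hy' : Adm B (Mr 𝒜 M) y')
    (hpos : ∀ i, 0 < y i) (hpos' : ∀ i, 0 < y' i) (hs : Sol L (c * y)) (hs' : Zer L (c * y'))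
    (hne : y ≠ y') (Z : Finset (Fin n → ℤ)) (hZ : ∀ z ∈ Z, Adm B (Mr 𝒜 M) z)
    (hspan : ∀ z ∈ Z, rat z ∈ Submodule.span ℚ {rat y, rat y'}) : (Z.card : ℝ) ≤ K ^ 2 := by
  obtain ⟨i, j, hij⟩ := exists_ne (Bds.mr 𝒜 hM) (Bds.mr 𝒜 hM) hy hy' hpos hpos' hne
  obtain ⟨k, hki, hkj⟩ := three hs hs' hy.ne_zero i j hij
  have hsame : ∀ r s, i₀ ∈ cls y y' r → i₀ ∈ cls y y' s → y r * y' s = y s * y' r := by
    intro r s hr hs
    have h1 : y r * y' i₀ = y i₀ * y' r := (Finset.mem_filter.1 hr).2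
    have h2 : y s * y' i₀ = y i₀ * y' s := (Finset.mem_filter.1 hs).2
    apply mul_left_cancel₀ (hy.ne_zero i₀)
    calc y i₀ * (y r * y' s) = y r * (y i₀ * y' s) := by ring
      _ = y r * (y s * y' i₀) := by rw [← h2]
      _ = y s * (y r * y' i₀) := by ring
      _ = y s * (y i₀ * y' r) := by rw [h1]
      _ = y i₀ * (y s * y' r) := by ring
  have key : ∀ r s, i₀ ∉ cls y y' r → i₀ ∉ cls y y' s → y r * y' s ≠ y s * y' r →
      (Z.card : ℝ) ≤ K ^ 2 := by
    intro r s hr hs hrs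
    have h1 := card_plane hB hK hm (Bds.mr 𝒜 hM) y y' hy.ne_zero hy.le hy'.le r s hrs Z hZ hspan
    have h2 : Mr 𝒜 M (cls y y' r) = 1 := by
      unfold Mr
      rw [if_neg (fun h => hr (h𝒜 _ h))]
    have h3 : Mr 𝒜 M (cls y y' s) = 1 := by
      unfold Mr
      rw [if_neg (fun h => hs (h𝒜 _ h))]
    rw [h2, h3] at h1
    linarith
  by_cases h1 : i₀ ∈ cls y y' i
  · have h2 : i₀ ∉ cls y y' j := fun h => hij (hsame i j h1 h)
    have h3 : i₀ ∉ cls y y' k := fun h => hki (hsame i k h1 h)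
    exact key j k h2 h3 hkj
  · by_cases h2 : i₀ ∈ cls y y' j
    · have h3 : i₀ ∉ cls y y' k := fun h => hkj (hsame j k h2 h)
      exact key i k h1 h3 hki
    · exact key i j h1 h2 hij

end Pool.Agent.PSV
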